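import Mathlib

/-!
# Standard p-functions

Definitions for problem MP_5fed26_pr.
-/

namespace T2h54.PF

open MeasureTheory Filter Topology
open scoped NNReal

/-- `p` is a p-function: `p 0 = 1` and there are measurable events `E t` (`t ≥ 0`) on a
probability space with `P (E t) = p t` and, for all `0 ≤ t₀ ≤ t₁ ≤ ... ≤ tₙ`,
`P (E t₀ ∩ E t₁ ∩ ... ∩ E tₙ) = p t₀ * P (E (t₁ - t₀) ∩ ... ∩ E (tₙ - t₀))`
(an empty intersection is the whole space). -/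
def IsPFunction (p : ℝ≥0 → ℝ) : Prop :=
  p 0 = 1 ∧ ∃ (Ω : Type) (_ : MeasurableSpace Ω) (P : Measure Ω) (E : ℝ≥0 → Set Ω),
    IsProbabilityMeasure P ∧ (∀ t, MeasurableSet (E t)) ∧ (∀ t, P.real (E t) = p t) ∧
    ∀ (n : ℕ) (t : Fin (n + 1) → ℝ≥0), Monotone t →
      P.real (⋂ i, E (t i)) = p (t 0) * P.real (⋂ i : Fin n, E (t i.succ - t 0))

/-- A standard p-function: a p-function with `p t → 1` as `t → 0+`. -/
def IsStandardPFunction (p : ℝ≥0 → ℝ) : Prop :=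
  IsPFunction p ∧ Tendsto p (𝓝[>] 0) (𝓝 1)

/-- `I M`: the infimum, over all standard p-functions `p` with `p 1 = M`, of the infimum of `p`
over `[0, 1]`. -/
noncomputable def I (M : ℝ) : ℝ :=
  sInf {m : ℝ | ∃ p : ℝ≥0 → ℝ, IsStandardPFunction p ∧ p 1 = M ∧ m = ⨅ t : Set.Icc (0 : ℝ≥0) 1, p t}

/-- The threshold `c = inf {M ∈ (0, 1] : I M > 0}`. -/
noncomputable def c : ℝ := sInf {M : ℝ | 0 < M ∧ M ≤ 1 ∧ 0 < I M}

end T2h54.PF
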