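import Pool.Agent.T2h54.PF.OnOff2

/-!
# The p-function of the on/off process: values
-/

namespace T2h54.PF

open MeasureTheory Filter Topology Set ProbabilityTheory
open scoped NNReal ENNReal

/-- The p-function of the on/off process. -/
noncomputable def pf (r a : ℝ) (t : ℝ≥0) : ℝ := (iid (expMeasure r)).real (Ev a t)

variable {r a : ℝ}

lemma exp_Ioi (hr : 0 < r) (t : ℝ) (ht : 0 ≤ t) :
    expMeasure r (Ioi t) = ENNReal.ofReal (Real.exp (-(r * t))) := by
  have := isProbabilityMeasure_expMeasure hr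
  have h1 : Ioi t = (Iic t)ᶜ := by ext; simp
  rw [h1, prob_compl_eq_one_sub measurableSet_Iic, ← ofReal_cdf, cdf_expMeasure_eq hr, if_pos ht,
    ← ENNReal.ofReal_one, ← ENNReal.ofReal_sub]
  · congr 1; ring
  · have : Real.exp (-(r * t)) ≤ 1 := Real.exp_le_one_iff.mpr (by
      have := mul_nonneg hr.le ht; linarith)
    linarith

lemma exp_Iic_zero (hr : 0 < r) : expMeasure r (Iic 0) = 0 := by
  have := isProbabilityMeasure_expMeasure hr
  rw [← ofReal_cdf, cdf_expMeasure_eq hr, if_pos le_rfl]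
  simp

theorem pf_isPFunction (hr : 0 < r) (ha : 0 ≤ a) : IsPFunction (pf r a) := by
  have := isProbabilityMeasure_expMeasure hr
  refine ⟨?_, (ℕ → ℝ), inferInstance, iid (expMeasure r), Ev a, inferInstance,
    measurableSet_Ev a, fun t => rfl, ?_⟩
  · unfold pf
    apply le_antisymm measureReal_le_one
    have h1 : {ω : ℕ → ℝ | ω 0 ∈ Ioi (0 : ℝ)} ⊆ Ev a 0 := by
      intro ω hω
      exact ⟨0, by rw [mem_A_zero]; exact hω⟩
    have h2 : (iid (expMeasure r)).real {ω : ℕ → ℝ | ω 0 ∈ Ioi (0 : ℝ)} = 1 := by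
      rw [measureReal_def, iid_coord (expMeasure r) measurableSet_Ioi 0, exp_Ioi hr 0 le_rfl]
      simp
    rw [← h2]
    exact measureReal_mono h1 (measure_ne_top _ _)
  · intro n t ht
    have h1 := Ev_prod (ν := expMeasure r) hr.le (exp_Ioi hr) ha n t ht
    unfold pf
    rw [measureReal_def, h1, ENNReal.toReal_mul]
    rfl

lemma pf_lower (hr : 0 < r) (t : ℝ≥0) : Real.exp (-(r * t)) ≤ pf r a t := by
  have := isProbabilityMeasure_expMeasure hr
  have h1 : {ω : ℕ → ℝ | ω 0 ∈ Ioi (t : ℝ)} ⊆ Ev a t := by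
    intro ω hω
    exact ⟨0, by rw [mem_A_zero]; exact hω⟩
  have h2 : (iid (expMeasure r)).real {ω : ℕ → ℝ | ω 0 ∈ Ioi (t : ℝ)} = Real.exp (-(r * t)) := by
    rw [measureReal_def, iid_coord (expMeasure r) measurableSet_Ioi 0, exp_Ioi hr (t : ℝ) t.coe_nonneg,
      ENNReal.toReal_ofReal (Real.exp_pos _).le]
  rw [← h2]
  exact measureReal_mono h1 (measure_ne_top _ _)

lemma pf_le_one (hr : 0 < r) (t : ℝ≥0) : pf r a t ≤ 1 := by
  have := isProbabilityMeasure_expMeasure hr
  exact measureReal_le_one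

theorem pf_standard (hr : 0 < r) (ha : 0 ≤ a) : IsStandardPFunction (pf r a) := by
  refine ⟨pf_isPFunction hr ha, ?_⟩
  have h1 : Tendsto (fun t : ℝ≥0 => Real.exp (-(r * t))) (𝓝 0) (𝓝 1) := by
    have : Continuous (fun t : ℝ≥0 => Real.exp (-(r * t))) := by fun_prop
    have h2 := this.tendsto 0
    simpa using h2
  exact tendsto_of_tendsto_of_tendsto_of_le_of_le (h1.mono_left nhdsWithin_le_nhds)
    tendsto_const_nhds (fun t => pf_lower hr t) (fun t => pf_le_one hr t)

/-- Almost surely all on-periods are positive. -/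
lemma ae_pos (hr : 0 < r) (i : ℕ) : iid (expMeasure r) {ω | ω i ≤ 0} = 0 := by
  have := isProbabilityMeasure_expMeasure hr
  have : {ω : ℕ → ℝ | ω i ≤ 0} = {ω | ω i ∈ Iic (0 : ℝ)} := rfl
  rw [this, iid_coord (expMeasure r) measurableSet_Iic i, exp_Iic_zero hr]

/-- The value at the length `a` of the off-period. -/
lemma pf_at_a (hr : 0 < r) (t : ℝ≥0) (hta : (t : ℝ) = a) : pf r a t ≤ Real.exp (-(r * a)) := by
  have := isProbabilityMeasure_expMeasure hr
  have h1 : Ev a t ⊆ {ω : ℕ → ℝ | ω 0 ∈ Ioi a} ∪ {ω | ω 0 ≤ 0} := by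
    rintro ω ⟨n, hn⟩
    cases n with
    | zero =>
      left
      rw [mem_A_zero, hta] at hn
      exact hn
    | succ n =>
      right
      rw [mem_A_succ, hta] at hn
      show ω 0 ≤ 0
      linarith [hn.1]
  have h2 : (iid (expMeasure r)) (Ev a t) ≤ ENNReal.ofReal (Real.exp (-(r * a))) := by
    refine (measure_mono h1).trans ((measure_union_le _ _).trans ?_)
    rw [ae_pos hr 0, add_zero, iid_coord (expMeasure r) measurableSet_Ioi 0,
      exp_Ioi hr a (by rw [← hta]; exact t.2)]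
  unfold pf
  rw [measureReal_def]
  exact ENNReal.toReal_le_of_le_ofReal (Real.exp_pos _).le h2

lemma integral_part (hr : 0 < r) (ha1 : a ≤ 1) :
    ∫⁻ x in Iic (1 - a), ENNReal.ofReal (Real.exp (-(r * (1 - a - x)))) ∂(expMeasure r)
      = ENNReal.ofReal (r * (1 - a) * Real.exp (-(r * (1 - a)))) := by
  unfold expMeasure gammaMeasure
  have hg : Measurable (fun x : ℝ => ENNReal.ofReal (Real.exp (-(r * (1 - a - x))))) := by
    fun_prop
  have hf : Measurable (gammaPDF 1 r) := (measurable_gammaPDFReal 1 r).ennreal_ofReal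
  rw [setLIntegral_withDensity_eq_setLIntegral_mul _ hf hg measurableSet_Iic]
  have h1 : ∀ x : ℝ, (gammaPDF 1 r * fun x : ℝ => ENNReal.ofReal (Real.exp (-(r * (1 - a - x))))) x
      = (Ici (0 : ℝ)).indicator (fun _ => ENNReal.ofReal (r * Real.exp (-(r * (1 - a))))) x := by
    intro x
    have e1 : gammaPDF 1 r x = exponentialPDF r x := rfl
    rw [Pi.mul_apply, e1]
    rcases le_or_gt 0 x with hx | hx
    · rw [exponentialPDF_of_nonneg hx, indicator_of_mem (show x ∈ Ici (0 : ℝ) from hx),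
        ← ENNReal.ofReal_mul (by positivity)]
      congr 1
      rw [mul_assoc, ← Real.exp_add]
      congr 2; ring
    · rw [exponentialPDF_of_neg hx, zero_mul, indicator_of_notMem]
      simp only [mem_Ici, not_le]; exact hx
  rw [lintegral_congr h1, lintegral_indicator measurableSet_Ici, Measure.restrict_restrict measurableSet_Ici,
    Ici_inter_Iic, lintegral_const, Measure.restrict_apply MeasurableSet.univ, univ_inter,
    Real.volume_Icc, ← ENNReal.ofReal_mul (by positivity)]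
  congr 1
  ring

theorem pf_at_one (hr : 0 < r) (ha : 1 / 2 ≤ a) (ha1 : a ≤ 1) :
    pf r a 1 = Real.exp (-r) + r * (1 - a) * Real.exp (-(r * (1 - a))) := by
  have := isProbabilityMeasure_expMeasure hr
  have hslice : Measurable (fun ω : ℕ → ℝ => (((1 : ℝ), ω) : ℝ × (ℕ → ℝ))) :=
    measurable_const.prodMk measurable_id
  have hm1 : ∀ n, MeasurableSet {ω : ℕ → ℝ | ((1 : ℝ), ω) ∈ A a n} :=
    fun n => hslice (measurableSet_A a n)
  have h0 : iid (expMeasure r) {ω | ((1 : ℝ), ω) ∈ A a 0} = ENNReal.ofReal (Real.exp (-r)) := by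
    have : {ω : ℕ → ℝ | ((1 : ℝ), ω) ∈ A a 0} = {ω | ω 0 ∈ Ioi (1 : ℝ)} := rfl
    rw [this, iid_coord (expMeasure r) measurableSet_Ioi 0, exp_Ioi hr 1 zero_le_one, mul_one]
  have h1 : iid (expMeasure r) {ω | ((1 : ℝ), ω) ∈ A a 1}
      = ENNReal.ofReal (r * (1 - a) * Real.exp (-(r * (1 - a)))) := by
    rw [iid_eq _ (hm1 1), ← integral_part hr ha1, ← lintegral_indicator measurableSet_Iic]
    apply lintegral_congr
    intro x
    by_cases hx : x ≤ 1 - a
    · rw [indicator_of_mem (show x ∈ Iic (1 - a) from hx)]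
      have e1 : {ω | cons x ω ∈ {ω | ((1 : ℝ), ω) ∈ A a 1}}
          = {ω | ω 0 ∈ Ioi (1 - a - x)} := by
        ext ω
        constructor
        · intro h
          have h' : ((1 : ℝ), cons x ω) ∈ A a 1 := h
          rw [mem_A_succ, mem_A_zero, cons_zero, tl_cons] at h'
          exact h'.2
        · intro h
          show ((1 : ℝ), cons x ω) ∈ A a 1
          rw [mem_A_succ, mem_A_zero, cons_zero, tl_cons]
          exact ⟨by linarith, h⟩
      rw [e1, iid_coord (expMeasure r) measurableSet_Ioi 0, exp_Ioi hr _ (by linarith)]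
    · rw [indicator_of_notMem (show x ∉ Iic (1 - a) from hx)]
      have e1 : {ω | cons x ω ∈ {ω | ((1 : ℝ), ω) ∈ A a 1}} = (∅ : Set (ℕ → ℝ)) := by
        rw [Set.eq_empty_iff_forall_notMem]
        intro ω h
        have h' : ((1 : ℝ), cons x ω) ∈ A a 1 := h
        rw [mem_A_succ, mem_A_zero, cons_zero, tl_cons] at h'
        exact hx (by linarith [h'.1])
      rw [e1, measure_empty]
  have h2 : iid (expMeasure r) ({ω | ω 0 ≤ 0} ∪ {ω | ω 1 ≤ 0}) = 0 :=
    measure_union_null (ae_pos hr 0) (ae_pos hr 1)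
  have hsub1 : {ω : ℕ → ℝ | ((1 : ℝ), ω) ∈ A a 0} ∪ {ω | ((1 : ℝ), ω) ∈ A a 1} ⊆ Ev a 1 := by
    rintro ω (h | h)
    · exact ⟨0, by simpa using h⟩
    · exact ⟨1, by simpa using h⟩
  have hsub2 : Ev a 1 ⊆ ({ω : ℕ → ℝ | ((1 : ℝ), ω) ∈ A a 0} ∪ {ω | ((1 : ℝ), ω) ∈ A a 1})
      ∪ ({ω | ω 0 ≤ 0} ∪ {ω | ω 1 ≤ 0}) := by
    rintro ω ⟨n, hn⟩
    rw [NNReal.coe_one] at hn
    match n, hn with
    | 0, hn => exact Or.inl (Or.inl hn)
    | 1, hn => exact Or.inl (Or.inr hn)
    | (k + 2), hn =>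
      right
      rw [mem_A_succ, mem_A_succ] at hn
      obtain ⟨h3, h4, _⟩ := hn
      have h5 : tl ω 0 = ω 1 := rfl
      rw [h5] at h4
      by_contra hc
      simp only [mem_union, not_or] at hc
      have h6 : ¬ ω 0 ≤ 0 := hc.1
      have h7 : ¬ ω 1 ≤ 0 := hc.2
      push Not at h6 h7
      linarith
  have hdisj : Disjoint {ω : ℕ → ℝ | ((1 : ℝ), ω) ∈ A a 0} {ω | ((1 : ℝ), ω) ∈ A a 1} := by
    rw [Set.disjoint_left]
    intro ω h3 h4
    exact absurd (A_disjoint (by linarith) 0 1 1 ω h3 h4) (by norm_num)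
  have hU : iid (expMeasure r)
      ({ω : ℕ → ℝ | ((1 : ℝ), ω) ∈ A a 0} ∪ {ω | ((1 : ℝ), ω) ∈ A a 1})
      = ENNReal.ofReal (Real.exp (-r) + r * (1 - a) * Real.exp (-(r * (1 - a)))) := by
    rw [measure_union hdisj (hm1 1), h0, h1, ← ENNReal.ofReal_add (Real.exp_pos _).le]
    have : 0 ≤ 1 - a := by linarith
    positivity
  have hE : iid (expMeasure r) (Ev a 1)
      = ENNReal.ofReal (Real.exp (-r) + r * (1 - a) * Real.exp (-(r * (1 - a)))) := by
    apply le_antisymm
    · refine (measure_mono hsub2).trans ((measure_union_le _ _).trans ?_)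
      rw [h2, add_zero, hU]
    · rw [← hU]; exact measure_mono hsub1
  unfold pf
  rw [measureReal_def, hE, ENNReal.toReal_ofReal]
  have : 0 ≤ 1 - a := by linarith
  positivity

end T2h54.PF
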