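import Pool.Agent.T2h54.PF.Lower
import Pool.Agent.T2h54.PF.OnOff3

/-!
# The value of `I M`
-/

namespace T2h54.PF

open MeasureTheory Filter Topology Set ProbabilityTheory
open scoped NNReal ENNReal

/-- The set whose infimum is `I M`. -/
def SM (M : ℝ) : Set ℝ :=
  {m : ℝ | ∃ p : ℝ≥0 → ℝ, IsStandardPFunction p ∧ p 1 = M ∧ m = ⨅ t : Set.Icc (0 : ℝ≥0) 1, p t}

lemma I_eq (M : ℝ) : I M = sInf (SM M) := rfl

lemma pfun_nonneg {p : ℝ≥0 → ℝ} (hp : IsPFunction p) (t : ℝ≥0) : 0 ≤ p t := by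
  obtain ⟨_, Ω, mΩ, P, E, hP, hEm, hEp, _⟩ := hp
  rw [← hEp]; exact measureReal_nonneg

lemma lower_mem {M m : ℝ} (hM : 0 < M) (hm : m ∈ SM M) : max 0 (1 + Real.log M) ≤ m := by
  obtain ⟨p, hp, hp1, rfl⟩ := hm
  have : Nonempty (Set.Icc (0 : ℝ≥0) 1) := ⟨⟨0, by simp⟩⟩
  apply le_ciInf
  rintro ⟨t, ht⟩
  apply max_le (pfun_nonneg hp.1 t)
  have h1 := pfun_bound hp ht.2
  rw [hp1] at h1
  have h2 := Real.log_le_log hM h1
  rw [Real.log_exp] at h2
  show 1 + Real.log M ≤ p t
  linarith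

lemma bddBelow_SM (M : ℝ) : BddBelow (SM M) := by
  refine ⟨0, ?_⟩
  rintro m ⟨p, hp, hp1, rfl⟩
  have : Nonempty (Set.Icc (0 : ℝ≥0) 1) := ⟨⟨0, by simp⟩⟩
  exact le_ciInf (fun t => pfun_nonneg hp.1 t)

lemma upper_of {M : ℝ} {p : ℝ≥0 → ℝ} (hp : IsStandardPFunction p) (hp1 : p 1 = M) {t : ℝ≥0}
    (ht : t ≤ 1) : (SM M).Nonempty ∧ I M ≤ p t := by
  have hmem : (⨅ t : Set.Icc (0 : ℝ≥0) 1, p t) ∈ SM M := ⟨p, hp, hp1, rfl⟩
  refine ⟨⟨_, hmem⟩, ?_⟩
  rw [I_eq]
  refine (csInf_le (bddBelow_SM M) hmem).trans ?_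
  have hb : BddBelow (Set.range (fun t : Set.Icc (0 : ℝ≥0) 1 => p t)) := by
    refine ⟨0, ?_⟩
    rintro _ ⟨t, rfl⟩
    exact pfun_nonneg hp.1 t
  exact ciInf_le hb ⟨t, zero_le, ht⟩

lemma upper_pf {r a M : ℝ} (hr : 0 < r) (ha : 1 / 2 ≤ a) (ha1 : a ≤ 1)
    (hM : Real.exp (-r) + r * (1 - a) * Real.exp (-(r * (1 - a))) = M) :
    (SM M).Nonempty ∧ I M ≤ Real.exp (-(r * a)) := by
  have ha0 : 0 ≤ a := by linarith
  have h1 := upper_of (pf_standard hr ha0) ((pf_at_one hr ha ha1).trans hM)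
    (t := ⟨a, ha0⟩) (by rw [← NNReal.coe_le_coe]; exact ha1)
  exact ⟨h1.1, h1.2.trans (pf_at_a hr _ rfl)⟩

lemma const_pfun : IsStandardPFunction (fun _ : ℝ≥0 => (1 : ℝ)) := by
  refine ⟨⟨rfl, Unit, inferInstance, Measure.dirac (), fun _ => Set.univ, inferInstance,
    fun _ => MeasurableSet.univ, fun _ => by simp, ?_⟩, tendsto_const_nhds⟩
  intro n t _
  simp

lemma I_one : (SM 1).Nonempty ∧ I 1 ≤ 1 :=
  upper_of (p := fun _ => 1) const_pfun rfl (t := 0) zero_le_one

lemma I_large {M : ℝ} (h1 : Real.exp (-1) < M) (h2 : M < 1) :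
    (SM M).Nonempty ∧ I M ≤ 1 + Real.log M := by
  have hM0 : 0 < M := (Real.exp_pos _).trans h1
  set x := 1 + Real.log M with hx
  have hx0 : 0 < x := by
    have := Real.log_lt_log (Real.exp_pos _) h1
    rw [Real.log_exp] at this
    rw [hx]; linarith
  have hx1 : x < 1 := by
    have := Real.log_neg hM0 h2
    rw [hx]; linarith
  have hlog : 1 - x ≤ -Real.log x := by
    have := Real.log_le_sub_one_of_pos hx0
    linarith
  set r := 1 - x - Real.log x with hr
  have hrpos : 0 < r := by rw [hr]; linarith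
  set a := -Real.log x / r with ha
  have hra : r * a = -Real.log x := by rw [ha]; field_simp
  have hra1 : r * (1 - a) = 1 - x := by rw [mul_sub, hra, hr]; ring
  have ha1 : 1 / 2 ≤ a := by
    rw [ha, div_le_div_iff₀ two_pos hrpos]
    rw [hr]; linarith
  have ha2 : a ≤ 1 := by
    rw [ha, div_le_one hrpos, hr]; linarith
  have hval : Real.exp (-r) + r * (1 - a) * Real.exp (-(r * (1 - a))) = M := by
    rw [hra1]
    have e1 : Real.exp (-r) = x * Real.exp (-(1 - x)) := by
      rw [hr, show -(1 - x - Real.log x) = Real.log x + -(1 - x) by ring, Real.exp_add,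
        Real.exp_log hx0]
    rw [e1]
    have e2 : Real.exp (-(1 - x)) = M := by
      rw [show -(1 - x) = Real.log M by rw [hx]; ring, Real.exp_log hM0]
    rw [e2]; ring
  have h3 := upper_pf hrpos ha1 ha2 hval
  refine ⟨h3.1, h3.2.trans (le_of_eq ?_)⟩
  rw [hra, neg_neg, Real.exp_log hx0]

lemma I_small {M : ℝ} (hM : 0 < M) (h1 : M ≤ Real.exp (-1)) :
    (SM M).Nonempty ∧ I M ≤ 0 := by
  have key : ∀ l : ℝ, 2 ≤ l → -Real.log M ≤ l →
      (SM M).Nonempty ∧ I M ≤ Real.exp (1 - l) := by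
    intro l hl1 hl2
    have hlpos : 0 < l := by linarith
    have hel : Real.exp (-l) ≤ M := by
      rw [← Real.exp_log hM]; exact Real.exp_le_exp.mpr (by linarith)
    have hcont : ContinuousOn (fun v : ℝ => Real.exp (-l) + v * Real.exp (-v)) (Icc 0 1) := by
      fun_prop
    have hivt := intermediate_value_Icc (zero_le_one (α := ℝ)) hcont
    obtain ⟨v, ⟨hv0, hv1⟩, hv⟩ := hivt (show M ∈ Icc _ _ from ⟨by simpa using hel, by
      have := Real.exp_pos (-l)
      simp only [one_mul]; linarith⟩)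
    set a := 1 - v / l with ha
    have hla : l * (1 - a) = v := by rw [ha]; field_simp; ring
    have ha1 : 1 / 2 ≤ a := by
      have : v / l ≤ 1 / 2 := by
        rw [div_le_div_iff₀ hlpos two_pos]; linarith
      rw [ha]; linarith
    have ha2 : a ≤ 1 := by
      have : 0 ≤ v / l := by positivity
      rw [ha]; linarith
    have hval : Real.exp (-l) + l * (1 - a) * Real.exp (-(l * (1 - a))) = M := by
      rw [hla]; exact hv
    have h3 := upper_pf hlpos ha1 ha2 hval
    refine ⟨h3.1, h3.2.trans ?_⟩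
    apply Real.exp_le_exp.mpr
    have : l * a = l - v := by rw [ha]; field_simp
    rw [this]; linarith
  refine ⟨(key (max 2 (-Real.log M)) (le_max_left _ _) (le_max_right _ _)).1, ?_⟩
  have hlim : Tendsto (fun l : ℝ => Real.exp (1 - l)) atTop (𝓝 0) := by
    apply Real.tendsto_exp_atBot.comp
    have : Tendsto (fun l : ℝ => 1 + -l) atTop atBot :=
      tendsto_atBot_add_const_left _ _ tendsto_neg_atTop_atBot
    refine this.congr (fun l => by ring)
  apply ge_of_tendsto hlim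
  filter_upwards [eventually_ge_atTop (max 2 (-Real.log M))] with l hl
  exact (key l ((le_max_left _ _).trans hl) ((le_max_right _ _).trans hl)).2

theorem I_value {M : ℝ} (hM0 : 0 < M) (hM1 : M ≤ 1) : I M = max 0 (1 + Real.log M) := by
  have hlow : ∀ h : (SM M).Nonempty, max 0 (1 + Real.log M) ≤ I M := by
    intro h
    rw [I_eq]
    exact le_csInf h (fun m hm => lower_mem hM0 hm)
  rcases le_or_gt M (Real.exp (-1)) with h1 | h1
  · have h2 := I_small hM0 h1
    exact le_antisymm (h2.2.trans (le_max_left _ _)) (hlow h2.1)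
  · rcases eq_or_lt_of_le hM1 with h3 | h3
    · subst h3
      have h2 := I_one
      apply le_antisymm _ (hlow h2.1)
      rw [Real.log_one, add_zero, max_eq_right zero_le_one]
      exact h2.2
    · have h2 := I_large h1 h3
      exact le_antisymm (h2.2.trans (le_max_right _ _)) (hlow h2.1)

theorem c_value : c = Real.exp (-1) := by
  unfold c
  have h1 : {M : ℝ | 0 < M ∧ M ≤ 1 ∧ 0 < I M} = Ioc (Real.exp (-1)) 1 := by
    ext M
    constructor
    · rintro ⟨h1, h2, h3⟩
      rw [I_value h1 h2] at h3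
      refine ⟨?_, h2⟩
      by_contra hc
      push Not at hc
      have h4 := Real.log_le_log h1 hc
      rw [Real.log_exp] at h4
      rw [max_eq_left (by linarith)] at h3
      exact lt_irrefl _ h3
    · rintro ⟨h1, h2⟩
      have h0 : 0 < M := (Real.exp_pos _).trans h1
      refine ⟨h0, h2, ?_⟩
      rw [I_value h0 h2]
      apply lt_max_of_lt_right
      have := Real.log_lt_log (Real.exp_pos _) h1
      rw [Real.log_exp] at this
      linarith
  rw [h1]
  exact csInf_Ioc (by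
    have := Real.exp_lt_exp.mpr (show (-1 : ℝ) < 0 by norm_num)
    rwa [Real.exp_zero] at this)

end T2h54.PF
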