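import Pool.Agent.T2h54.PF.Ren

/-!
# The first excursion above `exp (-q)`
-/

namespace T2h54.PF

open Finset

variable {f u : ℕ → ℝ}

lemma mul_log_sub_ge {a b : ℝ} (ha : 0 < a) (hb : 0 < b) :
    a - b ≤ a * (Real.log a - Real.log b) := by
  have h1 : Real.log (b / a) ≤ b / a - 1 := Real.log_le_sub_one_of_pos (by positivity)
  rw [Real.log_div hb.ne' ha.ne'] at h1
  have h2 : a * (Real.log b - Real.log a) ≤ a * (b / a - 1) :=
    mul_le_mul_of_nonneg_left h1 ha.le
  have h3 : a * (b / a - 1) = b - a := by field_simp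
  nlinarith

lemma sum_tri (g w : ℕ → ℝ) (n : ℕ) :
    ∑ j ∈ range (n + 1), (∑ k ∈ range (j + 1), g k) * w j
      = ∑ k ∈ range (n + 1), g k * ∑ i ∈ range (n - k + 1), w (n - i) := by
  have h1 : ∀ j ∈ range (n + 1), (∑ k ∈ range (j + 1), g k) * w j
      = ∑ k ∈ range (j + 1), g k * w j := fun j _ => by rw [sum_mul]
  rw [sum_congr rfl h1]
  rw [Finset.sum_comm' (t' := range (n + 1)) (s' := fun k => Finset.Ico k (n + 1))]
  · apply sum_congr rfl
    intro k hk
    rw [mem_range] at hk
    rw [mul_sum]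
    apply Finset.sum_nbij' (fun j => n - j) (fun i => n - i)
    · intro j hj
      simp only [mem_Ico] at hj
      simp only [mem_range]; omega
    · intro i hi
      simp only [mem_range] at hi
      simp only [mem_Ico]; omega
    · intro j hj
      simp only [mem_Ico] at hj
      omega
    · intro i hi
      simp only [mem_range] at hi
      omega
    · intro j hj
      simp only [mem_Ico] at hj
      have : n - (n - j) = j := by omega
      rw [this]
  · intro x y
    simp only [mem_range, mem_Ico]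
    omega

theorem Ren.first (h : Ren f u) (hq : 0 < f 1) : ∀ n, (∀ j ≤ n, Real.exp (-(f 1)) ≤ u j) →
    u n * (1 + (f 1)⁻¹ * Real.log (u n)) ≤ bd (cv u u) n := by
  intro n
  induction n using Nat.strong_induction_on with
  | _ n ih =>
  intro hn
  rcases Nat.eq_zero_or_pos n with rfl | hn0
  · simp [cv_zero, h.u0]
  have hpos : ∀ j ≤ n, 0 < u j := fun j hj => (Real.exp_pos _).trans_le (hn j hj)
  have hlog : ∀ j ≤ n, 0 ≤ 1 + (f 1)⁻¹ * Real.log (u j) := by
    intro j hj
    have h1 : -(f 1) ≤ Real.log (u j) := by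
      rw [← Real.log_exp (-(f 1))]
      exact Real.log_le_log (Real.exp_pos _) (hn j hj)
    have h2 : (f 1)⁻¹ * (-(f 1)) ≤ (f 1)⁻¹ * Real.log (u j) :=
      mul_le_mul_of_nonneg_left h1 (by positivity)
    have h3 : (f 1)⁻¹ * (-(f 1)) = -1 := by field_simp
    linarith
  have hdel : ∀ j < n, 0 ≤ bd (cv u u) j := by
    intro j hj
    refine le_trans ?_ (ih j hj (fun i hi => hn i (by omega)))
    exact mul_nonneg (hpos j hj.le).le (hlog j hj.le)
  have hmono : ∀ m, m < n → ∀ ρ ≤ m, cv u u ρ ≤ cv u u m := by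
    intro m
    induction m with
    | zero => intro _ ρ hρ; rw [Nat.le_zero.mp hρ]
    | succ m ihm =>
      intro hm ρ hρ
      rcases Nat.lt_or_ge ρ (m + 1) with h1 | h1
      · have h2 := ihm (by omega) ρ (by omega)
        have h3 := hdel (m + 1) hm
        rw [bd_succ] at h3
        linarith
      · rw [le_antisymm hρ h1]
  -- set up
  set K : ℕ → ℝ := fun j => u j * (1 + (f 1)⁻¹ * Real.log (u j)) with hK
  set E : ℕ → ℝ := fun j => bd (cv u u) j - K j with hE
  set Z : ℕ → ℝ := fun j => E j - cv f E j with hZ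
  have hEZ : E = cv u Z := h.solveS E
  set g : ℕ → ℝ := fun k => if k = 1 then 0 else f k with hg
  have hg0 : g 0 = 0 := by simp [hg, h.f0]
  have hg1 : g 1 = 0 := by simp [hg]
  have hgnn : ∀ k, 0 ≤ g k := by
    intro k; simp only [hg]; split_ifs
    · exact le_rfl
    · exact h.fnn k
  have hδ : ∀ j, bd (cv u u) j = cv f (bd (cv u u)) j + bd u j := by
    have : bd (cv u u) = cv u (bd u) := (cv_bd_right u u).symm
    exact h.unsolve this
  have hZlow : ∀ j, 1 ≤ j → j ≤ n →
      (f 1)⁻¹ * (cv g u j - (∑ k ∈ range (j + 1), g k) * u j) ≤ Z j := by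
    intro j hj1 hjn
    obtain ⟨i, rfl⟩ : ∃ i, j = i + 1 := ⟨j - 1, by omega⟩
    have e1 : Z (i + 1) = (u (i + 1) - u i)
        + ∑ k ∈ range (i + 1 + 1), f k * u (i + 1 - k) *
          ((f 1)⁻¹ * (Real.log (u (i + 1 - k)) - Real.log (u (i + 1)))) := by
      have a1 : cv f E (i + 1) = cv f (bd (cv u u)) (i + 1) - cv f K (i + 1) := by
        rw [hE, cv_sub]
      have a2 : Z (i + 1) = bd (cv u u) (i + 1) - K (i + 1) - cv f E (i + 1) := rfl
      have a3 : ∑ k ∈ range (i + 1 + 1), f k * u (i + 1 - k) *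
          ((f 1)⁻¹ * (Real.log (u (i + 1 - k)) - Real.log (u (i + 1))))
          = cv f K (i + 1) - cv f u (i + 1) * (1 + (f 1)⁻¹ * Real.log (u (i + 1))) := by
        unfold cv
        rw [sum_mul, ← sum_sub_distrib]
        apply sum_congr rfl
        intro k _
        simp only [hK]; ring
      rw [a2, a1, a3, hδ (i + 1), ← h.urec, bd_succ]
      simp only [hK]; ring
    have e2 : ∀ k ∈ range (i + 1 + 1), (f 1)⁻¹ * (f k * (u (i + 1 - k) - u (i + 1)))
        ≤ f k * u (i + 1 - k) *
          ((f 1)⁻¹ * (Real.log (u (i + 1 - k)) - Real.log (u (i + 1)))) := by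
      intro k _
      have b1 := mul_log_sub_ge (hpos (i + 1 - k) (by omega)) (hpos (i + 1) hjn)
      have b2 : 0 ≤ (f 1)⁻¹ * f k := mul_nonneg (by positivity) (h.fnn k)
      have b3 := mul_le_mul_of_nonneg_left b1 b2
      calc (f 1)⁻¹ * (f k * (u (i + 1 - k) - u (i + 1)))
          = (f 1)⁻¹ * f k * (u (i + 1 - k) - u (i + 1)) := by ring
        _ ≤ _ := b3
        _ = _ := by ring
    have e3 := sum_le_sum e2
    rw [← mul_sum] at e3
    have e4 : ∑ k ∈ range (i + 1 + 1), f k * (u (i + 1 - k) - u (i + 1))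
        = f 1 * (u i - u (i + 1)) + (cv g u (i + 1)
          - (∑ k ∈ range (i + 1 + 1), g k) * u (i + 1)) := by
      have c1 : ∀ k ∈ range (i + 1 + 1), f k * (u (i + 1 - k) - u (i + 1))
          = (if k = 1 then f 1 * (u i - u (i + 1)) else 0)
            + (g k * u (i + 1 - k) - g k * u (i + 1)) := by
        intro k _
        by_cases hk : k = 1
        · subst hk; simp [hg]
        · simp [hg, hk]; ring
      rw [sum_congr rfl c1, sum_add_distrib, sum_sub_distrib, ← sum_mul]
      rw [Finset.sum_ite_eq' (range (i + 1 + 1)) 1 (fun _ => f 1 * (u i - u (i + 1)))]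
      rw [if_pos (by simp)]
      rfl
    rw [e4] at e3
    have e5 : (f 1)⁻¹ * (f 1 * (u i - u (i + 1)) + (cv g u (i + 1)
          - (∑ k ∈ range (i + 1 + 1), g k) * u (i + 1)))
        = (u i - u (i + 1)) + (f 1)⁻¹ * (cv g u (i + 1)
          - (∑ k ∈ range (i + 1 + 1), g k) * u (i + 1)) := by
      field_simp
    rw [e5] at e3
    rw [e1]
    linarith
  have hZ0 : Z 0 = 0 := by
    have : E 0 = 0 := by simp [hE, hK, cv_zero, h.u0]
    simp [hZ, cv_zero, this, h.f0]
  have hEn : 0 ≤ E n := by
    rw [hEZ, cv_comm]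
    have s1 : ∀ j ∈ range (n + 1),
        (f 1)⁻¹ * ((cv g u j - (∑ k ∈ range (j + 1), g k) * u j) * u (n - j))
          ≤ Z j * u (n - j) := by
      intro j hj
      rw [mem_range] at hj
      rw [← mul_assoc]
      apply mul_le_mul_of_nonneg_right _ (h.u_nonneg _)
      rcases Nat.eq_zero_or_pos j with rfl | hj0
      · rw [hZ0, cv_zero, hg0]; simp [hg0]
      · exact hZlow j hj0 (by omega)
    refine le_trans ?_ (sum_le_sum s1)
    rw [← mul_sum]
    apply mul_nonneg (by positivity)
    have s2 : ∑ j ∈ range (n + 1), (cv g u j - (∑ k ∈ range (j + 1), g k) * u j) * u (n - j)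
        = ∑ k ∈ range (n + 1), g k * (cv u u (n - k) - Cc u (n - k) n) := by
      have t1 : ∑ j ∈ range (n + 1), (cv g u j - (∑ k ∈ range (j + 1), g k) * u j) * u (n - j)
          = cv (cv g u) u n
            - ∑ j ∈ range (n + 1), (∑ k ∈ range (j + 1), g k) * (u j * u (n - j)) := by
        have : cv (cv g u) u n = ∑ j ∈ range (n + 1), cv g u j * u (n - j) := rfl
        rw [this, ← sum_sub_distrib]
        apply sum_congr rfl
        intro j _
        ring
      rw [t1, cv_assoc, sum_tri g (fun j => u j * u (n - j)) n]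
      have : cv g (cv u u) n = ∑ k ∈ range (n + 1), g k * cv u u (n - k) := rfl
      rw [this, ← sum_sub_distrib]
      apply sum_congr rfl
      intro k hk
      rw [mem_range] at hk
      rw [Cc_ge_eq (by omega : n - k ≤ n), ← mul_sub]
      congr 2
      apply sum_congr rfl
      intro i hi
      rw [mem_range] at hi
      have : n - (n - i) = i := by omega
      rw [this, mul_comm]
    rw [s2]
    apply sum_nonneg
    intro k _
    rcases Nat.eq_zero_or_pos k with rfl | hk0
    · rw [hg0, zero_mul]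
    · apply mul_nonneg (hgnn k)
      have := h.Cc_le (m := n - k) (hmono (n - k) (by omega)) n
      linarith
  have : E n = bd (cv u u) n - K n := rfl
  rw [this] at hEn
  linarith

end T2h54.PF
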