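import Pool.Agent.T2h54.PF.First

/-!
# The truncated sequence `max (u n) γ`, its renewal density, and the level lemma
-/

namespace T2h54.PF

open Finset

/-- Truncation from below at `γ`. -/
noncomputable def pin (γ : ℝ) (u : ℕ → ℝ) (n : ℕ) : ℝ := max (u n) γ

/-- The renewal density of the truncated sequence. -/
noncomputable def Del (γ : ℝ) (u : ℕ → ℝ) : ℕ → ℝ := cv u (bd (pin γ u))

/-- The error sequence. -/
noncomputable def er (γ q : ℝ) (u : ℕ → ℝ) (n : ℕ) : ℝ := γ - u n + q * Del γ u n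

variable {f u : ℕ → ℝ} {γ : ℝ}

lemma pin_ge (n : ℕ) : γ ≤ pin γ u n := le_max_right _ _
lemma le_pin (n : ℕ) : u n ≤ pin γ u n := le_max_left _ _
lemma pin_of_ge {n : ℕ} (h : γ ≤ u n) : pin γ u n = u n := max_eq_left h
lemma pin_of_le {n : ℕ} (h : u n ≤ γ) : pin γ u n = γ := max_eq_right h

lemma Del_eq (γ : ℝ) (u : ℕ → ℝ) : Del γ u = bd (cv u (pin γ u)) := cv_bd_right _ _

lemma sum_Del (γ : ℝ) (u : ℕ → ℝ) (n : ℕ) :
    ∑ j ∈ range (n + 1), Del γ u j = cv u (pin γ u) n := by
  rw [Del_eq, sum_bd]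

lemma Ren.Del_rec (h : Ren f u) (γ : ℝ) (n : ℕ) :
    Del γ u n = cv f (Del γ u) n + bd (pin γ u) n := h.unsolve rfl n

lemma Ren.pin_eq (h : Ren f u) (γ : ℝ) : pin γ u = cv (Del γ u) (lam f) := by
  calc pin γ u = cv (bd (pin γ u)) (fun _ => 1) := (cv_bd_one _).symm
    _ = cv (bd (pin γ u)) (cv u (lam f)) := by rw [h.u_lam]
    _ = cv (cv (bd (pin γ u)) u) (lam f) := (cv_assoc _ _ _).symm
    _ = cv (Del γ u) (lam f) := by rw [Del, cv_comm (bd (pin γ u)) u]

lemma Ren.Del_zero (h : Ren f u) (hγ : γ ≤ 1) : Del γ u 0 = 1 := by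
  simp [Del, cv_zero, h.u0, pin, hγ]

/-- `Δ n ≤ π n` when `Δ ≥ 0` before `n`. -/
lemma Ren.Del_le_pin (h : Ren f u) {n : ℕ} (hΔ : ∀ j < n, 0 ≤ Del γ u j) :
    Del γ u n ≤ pin γ u n := by
  have h1 : pin γ u n = cv (Del γ u) (lam f) n := congrFun (h.pin_eq γ) n
  rw [h1]
  unfold cv
  rw [sum_range_succ, Nat.sub_self, h.lam_zero, mul_one]
  have : 0 ≤ ∑ k ∈ range n, Del γ u k * lam f (n - k) := by
    apply sum_nonneg
    intro k hk
    rw [mem_range] at hk
    exact mul_nonneg (hΔ k hk) (h.lam_nonneg _)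
  linarith

/-- `Δ n ≤ u n` when `Δ ≥ 0` before `n`. -/
lemma Ren.Del_le_u (h : Ren f u) (hγ : γ ≤ 1) : ∀ n, (∀ j < n, 0 ≤ Del γ u j) →
    Del γ u n ≤ u n := by
  intro n
  induction n using Nat.strong_induction_on with
  | _ n ih =>
  intro hΔ
  rcases Nat.eq_zero_or_pos n with rfl | hn0
  · rw [h.Del_zero hγ, h.u0]
  by_cases hn : γ ≤ u n
  · rw [← pin_of_ge hn]; exact h.Del_le_pin hΔ
  · push Not at hn
    obtain ⟨m, rfl⟩ : ∃ m, n = m + 1 := ⟨n - 1, by omega⟩
    rw [h.Del_rec γ (m + 1), h.urec m, bd_succ, pin_of_le hn.le]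
    have h1 : γ ≤ pin γ u m := pin_ge m
    have h2 : cv f (Del γ u) (m + 1) ≤ cv f u (m + 1) := by
      apply sum_le_sum
      intro k hk
      rcases Nat.eq_zero_or_pos k with rfl | hk0
      · rw [h.f0, zero_mul, zero_mul]
      · exact mul_le_mul_of_nonneg_left
          (ih (m + 1 - k) (by omega) (fun j hj => hΔ j (by omega))) (h.fnn k)
    linarith

lemma cv_split (a x : ℕ → ℝ) (s y : ℕ) :
    cv a x (s + y) = ∑ k ∈ range (y + 1), a k * x (s + y - k)
      + ∑ k ∈ Ico (y + 1) (s + y + 1), a k * x (s + y - k) := by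
  unfold cv
  rw [Finset.sum_range_add_sum_Ico _ (by omega)]

theorem Ren.level (h : Ren f u) {q : ℝ} (hγ0 : 0 ≤ γ) (hq0 : 0 ≤ q) (a x : ℕ) (hx : 1 ≤ x)
    (hu : ∀ j, a < j → j ≤ a + x → γ ≤ u j)
    (hΔ : ∀ j < a, 0 ≤ Del γ u j) (he : ∀ j < a, 0 ≤ er γ q u j)
    (hδ : ∀ j < x, 0 ≤ bd (cv u u) j) (hqδ : ∀ j < x, q * bd (cv u u) j ≤ u j) :
    u x * (q * Del γ u a - (pin γ u a - γ)) - q * (pin γ u a - γ) * (u x - bd (cv u u) x)
      ≤ er γ q u (a + x) := by
  set Δ := Del γ u with hΔdef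
  set δ := bd (cv u u) with hδdef
  set N : ℕ → ℝ := fun y => pin γ u (a + y) - γ with hN
  set S : ℕ → ℝ := fun y => N y - cv f N y with hS
  have hNS : N = cv u S := h.solveS N
  set D' : ℕ → ℝ := fun y => Δ (a + y) with hD'
  set R : ℕ → ℝ := fun y => D' y - cv f D' y with hR
  have hDR : D' = cv u R := h.solveS D'
  set s : ℕ → ℝ := fun y => if y = 0 then 0 else cv f Δ (a + y) - cv f D' y with hs
  set c : ℕ → ℝ := fun y => if y = 0 then Δ a - N 0 else 0 with hc
  -- the tail sum
  have hs_eq : ∀ y, 1 ≤ y → s y = ∑ k ∈ Ico (y + 1) (a + y + 1), f k * Δ (a + y - k) := by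
    intro y hy
    simp only [hs, if_neg (by omega : ¬ y = 0)]
    rw [cv_split f Δ a y]
    have : cv f D' y = ∑ k ∈ range (y + 1), f k * Δ (a + y - k) := by
      unfold cv
      apply sum_congr rfl
      intro k hk
      rw [mem_range] at hk
      simp only [hD']
      rw [show a + (y - k) = a + y - k by omega]
    rw [this]; ring
  have hs_nn : ∀ y, 0 ≤ s y := by
    intro y
    rcases Nat.eq_zero_or_pos y with rfl | hy
    · simp [hs]
    · rw [hs_eq y hy]
      apply sum_nonneg
      intro k hk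
      rw [mem_Ico] at hk
      exact mul_nonneg (h.fnn k) (hΔ _ (by omega))
  have hRe : ∀ y, R y = c y + s y + bd N y := by
    intro y
    cases y with
    | zero =>
      simp only [hR, hc, hs, cv_zero, h.f0]
      simp [hD']
    | succ y =>
      have h1 := h.Del_rec γ (a + (y + 1))
      rw [← add_assoc, bd_succ] at h1
      simp only [hR, hc, hs, if_neg (Nat.succ_ne_zero y), bd_succ, hD', hN]
      rw [← add_assoc]
      have h2 : Δ (a + y + 1) = cv f Δ (a + y + 1) + (pin γ u (a + y + 1) - pin γ u (a + y)) := h1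
      linarith
  have hSle : ∀ y, 1 ≤ y → y ≤ x → S y ≤ q * s y := by
    intro y hy1 hyx
    have h1 : N y = cv f u (a + y) - γ := by
      simp only [hN]
      rw [pin_of_ge (hu (a + y) (by omega) (by omega))]
      obtain ⟨z, rfl⟩ : ∃ z, y = z + 1 := ⟨y - 1, by omega⟩
      rw [← add_assoc, h.urec]
    have h2 : cv f N y = ∑ k ∈ range (y + 1), f k * (pin γ u (a + y - k) - γ) := by
      unfold cv
      apply sum_congr rfl
      intro k hk
      rw [mem_range] at hk
      simp only [hN]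
      rw [show a + (y - k) = a + y - k by omega]
    have h3 : ∑ k ∈ range (y + 1), f k * u (a + y - k) - cv f N y
        ≤ γ * ∑ k ∈ range (y + 1), f k := by
      rw [h2, mul_sum, ← sum_sub_distrib]
      apply sum_le_sum
      intro k _
      have := mul_nonneg (h.fnn k) (sub_nonneg.mpr (le_pin (γ := γ) (u := u) (a + y - k)))
      nlinarith
    have h4 : ∑ k ∈ Ico (y + 1) (a + y + 1), f k * u (a + y - k)
        ≤ q * s y + γ * ∑ k ∈ Ico (y + 1) (a + y + 1), f k := by
      rw [hs_eq y hy1, mul_sum, mul_sum, ← sum_add_distrib]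
      apply sum_le_sum
      intro k hk
      rw [mem_Ico] at hk
      have h5 := he (a + y - k) (by omega)
      unfold er at h5
      have h6 : u (a + y - k) ≤ q * Δ (a + y - k) + γ := by
        simp only [hΔdef]; linarith
      have h7 := mul_le_mul_of_nonneg_left h6 (h.fnn k)
      linarith
    have h8 : ∑ k ∈ range (y + 1), f k + ∑ k ∈ Ico (y + 1) (a + y + 1), f k ≤ 1 := by
      rw [Finset.sum_range_add_sum_Ico _ (by omega)]
      exact h.fsum _
    have h9 := mul_le_mul_of_nonneg_left h8 hγ0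
    have h10 := cv_split f u a y
    simp only [hS]
    rw [h1, h10]
    nlinarith
  have hmain : er γ q u (a + x) = q * (Δ a - N 0) * u x
      + (q * cv u s x + q * cv δ S x - cv u S x) := by
    have h1 : er γ q u (a + x) = q * D' x - N x := by
      simp only [er, hD', hN]
      rw [pin_of_ge (hu (a + x) (by omega) le_rfl)]; ring
    have h2 : cv u R x = (Δ a - N 0) * u x + cv u s x + cv δ S x := by
      have e1 : R = fun y => (c y + s y) + bd N y := funext hRe
      have e2 : cv u R = fun y => (cv u c y + cv u s y) + cv u (bd N) y := by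
        rw [e1, cv_add u (fun y => c y + s y) (bd N), cv_add u c s]
      have e3 : cv u c x = (Δ a - N 0) * u x := by
        rw [cv_comm]
        unfold cv
        rw [Finset.sum_eq_single 0]
        · simp [hc]
        · intro k _ hk; simp [hc, hk]
        · intro hk; simp at hk
      have e4 : cv u (bd N) = cv δ S := by
        conv_lhs => rw [hNS]
        rw [← cv_bd_left, ← cv_assoc, cv_bd_right]
      rw [e2]
      simp only [e3, e4]
    have h3 : D' x = cv u R x := congrFun hDR x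
    have h4 : N x = cv u S x := congrFun hNS x
    rw [h1, h3, h2, h4]; ring
  rw [hmain]
  have hsum : q * cv u s x + q * cv δ S x - cv u S x
      = ∑ y ∈ range (x + 1), (q * (u (x - y) * s y) - (u (x - y) - q * δ (x - y)) * S y) := by
    rw [cv_comm u s, cv_comm δ S, cv_comm u S]
    unfold cv
    rw [mul_sum, mul_sum, ← sum_add_distrib, ← sum_sub_distrib]
    apply sum_congr rfl
    intro y _
    ring
  rw [hsum, sum_range_succ']
  have hrest : 0 ≤ ∑ y ∈ range x, (q * (u (x - (y + 1)) * s (y + 1))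
      - (u (x - (y + 1)) - q * δ (x - (y + 1))) * S (y + 1)) := by
    apply sum_nonneg
    intro y hy
    rw [mem_range] at hy
    have h1 := hSle (y + 1) (by omega) (by omega)
    have h2 : 0 ≤ u (x - (y + 1)) - q * δ (x - (y + 1)) := by
      have := hqδ (x - (y + 1)) (by omega); linarith
    have h3 := mul_le_mul_of_nonneg_left h1 h2
    have h4 : 0 ≤ q * (q * (δ (x - (y + 1)) * s (y + 1))) :=
      mul_nonneg hq0 (mul_nonneg hq0 (mul_nonneg (hδ _ (by omega)) (hs_nn _)))
    nlinarith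
  have hS0 : S 0 = N 0 := by simp [hS, cv_zero, h.f0]
  have hs0 : s 0 = 0 := by simp [hs]
  have hN0 : N 0 = pin γ u a - γ := by simp [hN]
  rw [hs0, hS0, hN0, Nat.sub_zero]
  nlinarith

end T2h54.PF
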