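import Pool.Agent.T2h54.PF.Skel2

/-!
# The inequality `p t ≤ exp (p s - 1)` for `s ≤ t`
-/

namespace T2h54.PF

open MeasureTheory Filter Topology Finset
open scoped NNReal

theorem pfun_bound {p : ℝ≥0 → ℝ} (hp : IsStandardPFunction p) {s t : ℝ≥0} (hst : s ≤ t) :
    p t ≤ Real.exp (p s - 1) := by
  obtain ⟨⟨hp0, Ω, mΩ, P, E, hP, hEm, hEp, hprod⟩, hstd⟩ := hp
  rcases eq_or_lt_of_le (zero_le (a := t)) with ht0 | ht0
  · have hs0 : s = 0 := le_antisymm (hst.trans ht0.ge) zero_le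
    rw [hs0, ← ht0, hp0]; simp
  -- continuity at zero
  have hcont0 : Tendsto p (𝓝 0) (𝓝 1) := by
    have h0 : (Set.univ : Set ℝ≥0) = insert 0 (Set.Ioi 0) := by
      ext x
      simp only [Set.mem_univ, Set.mem_insert_iff, Set.mem_Ioi, true_iff]
      exact (eq_or_lt_of_le (zero_le (a := x))).imp (fun h => h.symm) id
    have h1 : 𝓝 (0 : ℝ≥0) = pure 0 ⊔ 𝓝[>] 0 := by
      rw [← nhdsWithin_univ, h0, nhdsWithin_insert]
    rw [h1, tendsto_sup]
    refine ⟨?_, hstd⟩
    rw [tendsto_pure_left]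
    intro u hu
    rw [hp0]; exact mem_of_mem_nhds hu
  set h : ℕ → ℝ≥0 := fun N => t / ((N : ℝ≥0) + 1) with hh
  have hpos : ∀ N, 0 < h N := fun N => by positivity
  have hlim : Tendsto h atTop (𝓝 0) := by
    have h1 : Tendsto (fun N : ℕ => (1 : ℝ≥0) / ((N : ℝ≥0) + 1)) atTop (𝓝 0) :=
      tendsto_one_div_add_atTop_nhds_zero_nat
    have h2 := h1.const_mul t
    rw [mul_zero] at h2
    refine h2.congr (fun N => ?_)
    simp only [hh]; rw [mul_one_div]
  have hpl : Tendsto (fun N => p (h N)) atTop (𝓝 1) := hcont0.comp hlim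
  set m : ℕ → ℕ := fun N => ⌊s / h N⌋₊ with hm
  have hm1 : ∀ N, (m N : ℝ≥0) * h N ≤ s := by
    intro N
    have h1 : ((m N : ℕ) : ℝ≥0) ≤ s / h N := Nat.floor_le zero_le
    rwa [le_div_iff₀ (hpos N)] at h1
  have hm2 : ∀ N, s - (m N : ℝ≥0) * h N ≤ h N := by
    intro N
    have h1 : s / h N < (m N : ℝ≥0) + 1 := Nat.lt_floor_add_one _
    rw [div_lt_iff₀ (hpos N)] at h1
    rw [tsub_le_iff_right]
    calc s ≤ ((m N : ℝ≥0) + 1) * h N := h1.le
      _ = h N + (m N : ℝ≥0) * h N := by ring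
  have hmN : ∀ N, m N ≤ N + 1 := by
    intro N
    have h1 : s / h N ≤ (N : ℝ≥0) + 1 := by
      rw [div_le_iff₀ (hpos N)]
      simp only [hh]
      rw [mul_div_cancel₀]
      · exact hst
      · positivity
    have h2 : ⌊s / h N⌋₊ ≤ ⌊((N + 1 : ℕ) : ℝ≥0)⌋₊ := Nat.floor_le_floor (by exact_mod_cast h1)
    rwa [Nat.floor_natCast] at h2
  have hd : Tendsto (fun N => s - (m N : ℝ≥0) * h N) atTop (𝓝 0) :=
    tendsto_of_tendsto_of_tendsto_of_le_of_le tendsto_const_nhds hlim (fun _ => zero_le) hm2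
  have hpd : Tendsto (fun N => p (s - (m N : ℝ≥0) * h N)) atTop (𝓝 1) := hcont0.comp hd
  have hps : Tendsto (fun N => p ((m N : ℝ≥0) * h N)) atTop (𝓝 (p s)) := by
    rw [tendsto_iff_norm_sub_tendsto_zero]
    have h1 : Tendsto (fun N => 1 - p (s - (m N : ℝ≥0) * h N)) atTop (𝓝 0) := by
      have := (tendsto_const_nhds (x := (1 : ℝ))).sub hpd
      simpa using this
    refine squeeze_zero (fun _ => norm_nonneg _) (fun N => ?_) h1
    have h2 := two_point hEm hEp hprod ((m N : ℝ≥0) * h N) (s - (m N : ℝ≥0) * h N)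
    rw [add_tsub_cancel_of_le (hm1 N)] at h2
    rw [Real.norm_eq_abs, abs_sub_comm]
    exact h2
  obtain ⟨q0, hq01, hq00, hgood⟩ := good_near
  have hev : ∀ᶠ N in atTop, p t ≤
      Real.exp (p (h N) * (p ((m N : ℝ≥0) * h N) - 1)) / p (h N) := by
    have h1 : ∀ᶠ N in atTop, q0 < p (h N) := hpl.eventually_const_lt hq01
    filter_upwards [h1] with N hN
    have hle : p (h N) ≤ 1 := by rw [← hEp]; exact measureReal_le_one
    have hren := skeleton hp0 hEm hEp hprod (h N)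
    have hf1 : fw P E (h N) 1 = p (h N) := fw_one hEp (h N)
    have hb := hren.bound (by rw [hf1]; exact hgood _ hN hle) (m N) (N + 1 - m N)
    rw [hf1] at hb
    have e1 : m N + (N + 1 - m N) = N + 1 := by have := hmN N; omega
    have e2 : (((N + 1 : ℕ)) : ℝ≥0) * h N = t := by
      simp only [hh]
      push_cast
      rw [mul_div_cancel₀]
      positivity
    have hb' : p ((((m N + (N + 1 - m N)) : ℕ) : ℝ≥0) * h N)
        ≤ Real.exp (p (h N) * (p ((m N : ℝ≥0) * h N) - 1)) / p (h N) := hb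
    rw [e1, e2] at hb'
    exact hb'
  have hlimR : Tendsto (fun N => Real.exp (p (h N) * (p ((m N : ℝ≥0) * h N) - 1)) / p (h N))
      atTop (𝓝 (Real.exp (1 * (p s - 1)) / 1)) := by
    apply Tendsto.div _ hpl one_ne_zero
    exact (Real.continuous_exp.tendsto _).comp (hpl.mul (hps.sub_const 1))
  have := ge_of_tendsto hlimR hev
  simpa using this

end T2h54.PF
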