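import Pool.Agent.T2h54.PF.T1

/-!
# The main induction
-/

namespace T2h54.PF

open Finset

variable {f u : ℕ → ℝ}

/-- Numerical conditions on `q = f 1`, true for `q` close to one. -/
structure Good (q : ℝ) : Prop where
  le_one : q ≤ 1
  half : 1 / 2 < q
  theta : 0 < q ^ 2 - (1 - q)
  eta : 0 ≤ Real.exp (q * (Real.exp (-q) - 1)) / q - Real.exp (-q)
  pos1 : (1 + q) * (Real.exp (q * (Real.exp (-q) - 1)) / q - Real.exp (-q)) / q
    ≤ Real.exp (q * (Real.exp (-q) - 1)) / q
  pos2 : 0 ≤ Real.exp (q * (Real.exp (-q) - 1)) / q
    - (Real.exp (q * (Real.exp (-q) - 1)) / q - Real.exp (-q)) / q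
    - (Real.exp (q * (Real.exp (-q) - 1)) / q - Real.exp (-q)) / (2 * q ^ 2)
  main : 1 - 2 * Real.exp (-q) ≤ (q ^ 2 - (1 - q)) *
    (Real.exp (q * (Real.exp (-q) - 1)) / q
    - (Real.exp (q * (Real.exp (-q) - 1)) / q - Real.exp (-q)) / q
    - (Real.exp (q * (Real.exp (-q) - 1)) / q - Real.exp (-q)) / (2 * q ^ 2))

/-- Partial sums of the tail weights from index `1`. -/
noncomputable def asum (f : ℕ → ℝ) (n : ℕ) : ℝ := ∑ j ∈ range n, lam f (j + 1)

lemma asum_succ (f : ℕ → ℝ) (n : ℕ) : asum f (n + 1) = asum f n + lam f (n + 1) := by
  unfold asum; rw [sum_range_succ]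

lemma exp_neg_div_le {q l : ℝ} (hq : 0 < q) (hl0 : 0 ≤ l) (hl : l ≤ 1 - q) :
    Real.exp (-(l / q)) ≤ 1 - l := by
  have h1 : 0 < 1 - l := by linarith
  have h2 : 1 - (1 - l)⁻¹ ≤ Real.log (1 - l) := Real.one_sub_inv_le_log_of_pos h1
  have h3 : -(l / q) ≤ 1 - (1 - l)⁻¹ := by
    have e1 : 1 - (1 - l)⁻¹ = -(l / (1 - l)) := by field_simp; ring
    rw [e1]
    have : l / (1 - l) ≤ l / q := div_le_div_of_nonneg_left hl0 hq (by linarith)
    linarith
  rw [← Real.exp_log h1]
  exact Real.exp_le_exp.mpr (h3.trans h2)

lemma Ren.u_low (h : Ren f u) (hq : 0 < f 1) : ∀ n, ∀ j ≤ n,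
    Real.exp (-(asum f n / f 1)) ≤ u j := by
  intro n
  induction n with
  | zero =>
    intro j hj
    rw [Nat.le_zero.mp hj, h.u0]
    simp [asum]
  | succ n ih =>
    intro j hj
    have hl0 := h.lam_nonneg (n + 1)
    have hle : Real.exp (-(asum f (n + 1) / f 1)) ≤ Real.exp (-(asum f n / f 1)) := by
      apply Real.exp_le_exp.mpr
      rw [asum_succ]
      have : asum f n / f 1 ≤ (asum f n + lam f (n + 1)) / f 1 :=
        div_le_div_of_nonneg_right (by linarith) hq.le
      linarith
    rcases Nat.lt_or_ge j (n + 1) with h1 | h1
    · exact hle.trans (ih j (by omega))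
    · rw [le_antisymm hj h1, h.urec]
      have h2 : (∑ k ∈ range (n + 1 + 1), f k) * Real.exp (-(asum f n / f 1))
          ≤ cv f u (n + 1) := by
        rw [sum_mul]
        apply sum_le_sum
        intro k hk
        rcases Nat.eq_zero_or_pos k with rfl | hk0
        · rw [h.f0, zero_mul, zero_mul]
        · exact mul_le_mul_of_nonneg_left (ih _ (by omega)) (h.fnn k)
      refine le_trans ?_ h2
      have h3 : ∑ k ∈ range (n + 1 + 1), f k = 1 - lam f (n + 1) := by unfold lam; ring
      rw [h3, asum_succ, add_div, neg_add, Real.exp_add, mul_comm]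
      apply mul_le_mul_of_nonneg_right _ (Real.exp_pos _).le
      apply exp_neg_div_le hq hl0
      have := h.lam_anti (show 1 ≤ n + 1 by omega)
      rw [h.lam_one] at this
      exact this

lemma Ren.asum_sq (h : Ren f u) : ∀ N, ∑ x ∈ range N, lam f (x + 1) * asum f (x + 1)
    ≤ (asum f N ^ 2 + (1 - f 1) * asum f N) / 2 := by
  intro N
  induction N with
  | zero => simp [asum]
  | succ N ih =>
    rw [sum_range_succ, asum_succ]
    have h1 := h.lam_nonneg (N + 1)
    have h2 := h.lam_anti (show 1 ≤ N + 1 by omega)
    rw [h.lam_one] at h2
    nlinarith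

lemma Ren.asum_mono (h : Ren f u) : Monotone (asum f) :=
  monotone_nat_of_le_succ (fun n => by rw [asum_succ]; linarith [h.lam_nonneg (n + 1)])

lemma bd_first {γ : ℝ} {n : ℕ} (hn : ∀ j ≤ n, γ ≤ u j) :
    Del γ u n = bd (cv u u) n := by
  have h1 : ∀ m ≤ n, cv u (pin γ u) m = cv u u m := by
    intro m hm
    unfold cv
    apply sum_congr rfl
    intro k hk
    rw [mem_range] at hk
    rw [pin_of_ge (hn _ (by omega))]
  rw [Del_eq]
  cases n with
  | zero => simp [h1 0 le_rfl]
  | succ n => simp [h1 (n + 1) le_rfl, h1 n (by omega)]

lemma Ren.T1bound (h : Ren f u) {q : ℝ} (hqf : q = f 1) (hq0 : 0 < q) (m W : ℕ)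
    (hΔ : ∀ j ≤ W, 0 ≤ Del (Real.exp (-q)) u j) :
    u (m + W) ≤ Real.exp (q * (u m - 1)) / q :=
  (h.T1 hqf hq0 m W hΔ).trans (phi_legendre hq0 (h.u_nonneg m))

theorem Ren.main_ind (h : Ren f u) {q : ℝ} (hqf : q = f 1) (hg : Good q) : ∀ n,
    0 ≤ Del (Real.exp (-q)) u n ∧ 0 ≤ er (Real.exp (-q)) q u n := by
  have hq0 : 0 < q := by linarith [hg.half]
  have hq1 := hg.le_one
  set γ := Real.exp (-q) with hγ
  have hγ0 : 0 < γ := Real.exp_pos _
  have hγ1 : γ ≤ 1 := by
    rw [hγ]; exact Real.exp_le_one_iff.mpr (by linarith)
  set y := Real.exp (q * (γ - 1)) / q with hy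
  intro n
  induction n using Nat.strong_induction_on with
  | _ n ih =>
  have ihΔ : ∀ j < n, 0 ≤ Del γ u j := fun j hj => (ih j hj).1
  have ihe : ∀ j < n, 0 ≤ er γ q u j := fun j hj => (ih j hj).2
  rcases Nat.eq_zero_or_pos n with rfl | hn0
  · have h1 : Del γ u 0 = 1 := h.Del_zero hγ1
    refine ⟨by rw [h1]; norm_num, ?_⟩
    unfold er
    rw [h1, h.u0]
    have := Real.add_one_le_exp (-q)
    rw [← hγ] at this
    linarith
  by_cases hn : γ ≤ u n
  swap
  · -- dip
    push Not at hn
    have hD : 0 ≤ Del γ u n := by
      obtain ⟨m, rfl⟩ : ∃ m, n = m + 1 := ⟨n - 1, by omega⟩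
      rw [h.Del_rec γ (m + 1), bd_succ, pin_of_le hn.le]
      have h1 : q * Del γ u m ≤ cv f (Del γ u) (m + 1) := by
        have e1 : q * Del γ u m = f 1 * Del γ u (m + 1 - 1) := by rw [hqf]; rfl
        rw [e1]
        unfold cv
        apply Finset.single_le_sum (f := fun k => f k * Del γ u (m + 1 - k)) _
          (by simp : 1 ∈ range (m + 1 + 1))
        intro k hk
        rcases Nat.eq_zero_or_pos k with rfl | hk0
        · rw [h.f0, zero_mul]
        · exact mul_nonneg (h.fnn k) (ihΔ _ (by omega))
      have h2 : pin γ u m - γ ≤ q * Del γ u m := by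
        rcases le_total γ (u m) with h3 | h3
        · rw [pin_of_ge h3]
          have := ihe m (by omega)
          unfold er at this
          linarith
        · rw [pin_of_le h3]
          have := mul_nonneg hq0.le (ihΔ m (by omega))
          linarith
      linarith
    refine ⟨hD, ?_⟩
    unfold er
    have := mul_nonneg hq0.le hD
    linarith
  · -- excursion
    by_cases hdip : ∃ s, s < n ∧ u s < γ
    swap
    · -- first excursion
      push Not at hdip
      have hall : ∀ j ≤ n, γ ≤ u j := by
        intro j hj
        rcases Nat.lt_or_ge j n with h1 | h1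
        · exact hdip j h1
        · rw [le_antisymm hj h1]; exact hn
      have h1 := h.first (by rw [← hqf]; exact hq0) n (by rw [← hqf]; exact hall)
      have h2 : Del γ u n = bd (cv u u) n := bd_first hall
      rw [← h2, ← hqf] at h1
      have hupos : 0 < u n := hγ0.trans_le hn
      have h3 := mul_log_sub_ge hupos hγ0
      have h4 : Real.log γ = -q := by rw [hγ, Real.log_exp]
      rw [h4] at h3
      have h5 : q * (u n * (1 + q⁻¹ * Real.log (u n))) = u n * (Real.log (u n) - -q) := by
        field_simp; ring
      have h6 := mul_le_mul_of_nonneg_left h1 hq0.le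
      rw [h5] at h6
      have h7 : u n - γ ≤ q * Del γ u n := h3.trans h6
      refine ⟨?_, by unfold er; linarith⟩
      have h8 : 0 ≤ q * Del γ u n := by linarith
      exact nonneg_of_mul_nonneg_right h8 hq0
    · -- later excursion
      have hmain : 0 ≤ er γ q u n := by
        obtain ⟨n1, ⟨hn1n, hn1⟩, hn1min⟩ : ∃ n1, (n1 < n ∧ u n1 < γ) ∧
            ∀ j < n1, ¬ (j < n ∧ u j < γ) := by
          classical
          exact ⟨Nat.find hdip, Nat.find_spec hdip, fun j hj => Nat.find_min hdip hj⟩
        have hfirst : ∀ j < n1, γ ≤ u j := by
          intro j hj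
          by_contra hc
          push Not at hc
          exact hn1min j hj ⟨by omega, hc⟩
        obtain ⟨s0, hs0n, hs0, hs0max⟩ : ∃ s0, s0 < n ∧ u s0 < γ ∧
            ∀ j, s0 < j → j ≤ n → γ ≤ u j := by
          classical
          set P : ℕ → Prop := fun s => s < n ∧ u s < γ with hP
          have hPs : P (Nat.findGreatest P n) := by
            obtain ⟨s, hs⟩ := hdip
            exact Nat.findGreatest_spec (P := P) (m := s) hs.1.le hs
          refine ⟨Nat.findGreatest P n, hPs.1, hPs.2, ?_⟩
          intro j hj hjn
          by_contra hc
          push Not at hc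
          have hjn' : j ≠ n := by
            rintro rfl; linarith
          exact Nat.findGreatest_is_greatest hj hjn ⟨by omega, hc⟩
        have hn1s0 : n1 ≤ s0 := by
          by_contra hc
          push Not at hc
          exact hn1min s0 hc ⟨hs0n, hs0⟩
        have hn1pos : 0 < n1 := by
          rcases Nat.eq_zero_or_pos n1 with h0 | h0
          · rw [h0, h.u0] at hn1; linarith
          · exact h0
        have hδ : ∀ j < n1, bd (cv u u) j = Del γ u j := by
          intro j hj
          exact (bd_first (fun i hi => hfirst i (by omega))).symm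
        have hδnn : ∀ j < n1, 0 ≤ bd (cv u u) j := by
          intro j hj; rw [hδ j hj]; exact ihΔ j (by omega)
        have hδle : ∀ j < n1, q * bd (cv u u) j ≤ u j := by
          intro j hj
          have h1 : Del γ u j ≤ u j := h.Del_le_u hγ1 j (fun i hi => ihΔ i (by omega))
          have h2 := hδnn j hj
          rw [hδ j hj] at h2 ⊢
          nlinarith
        -- level lemma
        have hlev : ∀ x, 1 ≤ x → x ≤ n1 → x ≤ n - s0 →
            u x * (q * Del γ u (n - x) - (pin γ u (n - x) - γ))
              - q * (pin γ u (n - x) - γ) * (u x - bd (cv u u) x) ≤ er γ q u n := by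
          intro x hx1 hx2 hx3
          have h1 := h.level (γ := γ) hγ0.le hq0.le (n - x) x hx1
            (fun j hj1 hj2 => hs0max j (by omega) (by omega))
            (fun j hj => ihΔ j (by omega)) (fun j hj => ihe j (by omega))
            (fun j hj => hδnn j (by omega)) (fun j hj => hδle j (by omega))
          rwa [show n - x + x = n by omega] at h1
        rcases Nat.lt_or_ge n1 (n - s0) with hlong | hshort
        swap
        · -- short excursion
          have h1 := hlev (n - s0) (by omega) hshort le_rfl
          rw [show n - (n - s0) = s0 by omega, pin_of_le hs0.le] at h1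
          have h2 : 0 ≤ u (n - s0) * (q * Del γ u s0) :=
            mul_nonneg (h.u_nonneg _) (mul_nonneg hq0.le (ihΔ s0 hs0n))
          linarith
        · -- long excursion
          by_contra hneg
          push Not at hneg
          have hlpos : ∀ x < n1, 0 < u x := fun x hx => hγ0.trans_le (hfirst x hx)
          -- bound on Δ
          have hΔup : ∀ x, 1 ≤ x → x < n1 →
              Del γ u (n - x) ≤ (1 + -Real.log (u x)) * (u (n - x) - γ) / q := by
            intro x hx1 hx2
            have h1 := hlev x hx1 hx2.le (by omega)
            have hge : γ ≤ u (n - x) := hs0max (n - x) (by omega) (by omega)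
            rw [pin_of_ge hge] at h1
            have h2 := h.first (by rw [← hqf]; exact hq0) x
              (by rw [← hqf]; exact fun j hj => hfirst j (by omega))
            rw [← hqf] at h2
            have h3 : q * (u x - bd (cv u u) x) ≤ u x * (-Real.log (u x)) := by
              have e1 : q * (u x * (1 + q⁻¹ * Real.log (u x)))
                  = q * u x + u x * Real.log (u x) := by field_simp
              have e2 := mul_le_mul_of_nonneg_left h2 hq0.le
              rw [e1] at e2
              linarith
            have h4 : (u (n - x) - γ) * (q * (u x - bd (cv u u) x))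
                ≤ (u (n - x) - γ) * (u x * (-Real.log (u x))) :=
              mul_le_mul_of_nonneg_left h3 (by linarith)
            have h5 : u x * (q * Del γ u (n - x))
                ≤ u x * ((1 + -Real.log (u x)) * (u (n - x) - γ)) := by nlinarith
            have h6 := le_of_mul_le_mul_left h5 (hlpos x hx2)
            rw [le_div_iff₀ hq0]
            linarith
          -- upper bound on u in the excursion
          have hyup : ∀ x, 1 ≤ x → x < n1 → u (n - x) ≤ y := by
            intro x hx1 hx2
            have h1 := h.T1bound hqf hq0 s0 (n - x - s0) (fun j hj => ihΔ j (by omega))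
            rw [show s0 + (n - x - s0) = n - x by omega] at h1
            refine h1.trans ?_
            rw [hy]
            apply div_le_div_of_nonneg_right _ hq0.le
            apply Real.exp_le_exp.mpr
            apply mul_le_mul_of_nonneg_left _ hq0.le
            linarith
          -- mass identity
          have hid : 1 - u n = ∑ x ∈ range (n + 1), lam f x * (u (n - x) - Del γ u (n - x)) := by
            have e1 : cv (lam f) u n = 1 := by rw [cv_comm, h.u_lam]
            have e2 : cv (lam f) (Del γ u) n = u n := by
              rw [cv_comm, ← h.pin_eq, pin_of_ge hn]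
            have e3 : cv (lam f) u n - cv (lam f) (Del γ u) n
                = ∑ x ∈ range (n + 1), lam f x * (u (n - x) - Del γ u (n - x)) := by
              unfold cv
              rw [← sum_sub_distrib]
              exact sum_congr rfl (fun _ _ => by ring)
            rw [← e3, e1, e2]
          have hΔle : ∀ j < n, Del γ u j ≤ u j :=
            fun j hj => h.Del_le_u hγ1 j (fun i hi => ihΔ i (by omega))
          have hsum1 : (u n - Del γ u n)
              + ∑ x ∈ range (n1 - 1), lam f (x + 1) * (u (n - (x + 1)) - Del γ u (n - (x + 1)))
              ≤ 1 - u n := by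
            rw [hid, sum_range_succ']
            rw [h.lam_zero, Nat.sub_zero, one_mul]
            have hsub : range (n1 - 1) ⊆ range n := range_subset_range.mpr (by omega)
            have := sum_le_sum_of_subset_of_nonneg (f := fun x => lam f (x + 1) *
              (u (n - (x + 1)) - Del γ u (n - (x + 1)))) hsub (by
                intro x hx _
                rw [mem_range] at hx
                apply mul_nonneg (h.lam_nonneg _)
                have := hΔle (n - (x + 1)) (by omega)
                linarith)
            linarith
          have hDn : Del γ u n ≤ (u n - γ) / q := by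
            rw [le_div_iff₀ hq0]
            unfold er at hneg
            linarith
          have hDn2 : (u n - γ) / q ≤ 2 * (u n - γ) := by
            rw [div_le_iff₀ hq0]
            nlinarith [hg.half]
          have hsum2 : ∑ x ∈ range (n1 - 1),
              lam f (x + 1) * (y - (1 + -Real.log (u (x + 1))) * (y - γ) / q)
              ≤ ∑ x ∈ range (n1 - 1),
                lam f (x + 1) * (u (n - (x + 1)) - Del γ u (n - (x + 1))) := by
            apply sum_le_sum
            intro x hx
            rw [mem_range] at hx
            apply mul_le_mul_of_nonneg_left _ (h.lam_nonneg _)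
            have h1 := hΔup (x + 1) (by omega) (by omega)
            have h2 := hyup (x + 1) (by omega) (by omega)
            have h3 : 0 ≤ -Real.log (u (x + 1)) := by
              have := Real.log_nonpos (h.u_nonneg (x + 1)) (h.u_le_one (x + 1))
              linarith
            have h4 : (y - u (n - (x + 1))) ≤
                (1 + -Real.log (u (x + 1))) * (y - u (n - (x + 1))) / q := by
              rw [le_div_iff₀ hq0]
              nlinarith [mul_nonneg h3 (sub_nonneg.mpr h2)]
            have h5 : (1 + -Real.log (u (x + 1))) * (y - γ) / q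
                = (1 + -Real.log (u (x + 1))) * (y - u (n - (x + 1))) / q
                  + (1 + -Real.log (u (x + 1))) * (u (n - (x + 1)) - γ) / q := by ring
            rw [h5]
            linarith
          -- strictness
          have hstrict : ∑ x ∈ range (n1 - 1),
              lam f (x + 1) * (y - (1 + -Real.log (u (x + 1))) * (y - γ) / q)
              < 1 - 2 * γ ∨ Del γ u n = (u n - γ) / q := by
            rcases lt_or_eq_of_le hDn with h1 | h1
            · left; linarith
            · right; exact h1
          have hlt : Del γ u n < (u n - γ) / q := by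
            rw [lt_div_iff₀ hq0]
            unfold er at hneg
            linarith
          have hstrict' : ∑ x ∈ range (n1 - 1),
              lam f (x + 1) * (y - (1 + -Real.log (u (x + 1))) * (y - γ) / q)
              < 1 - 2 * γ := by linarith
          -- lower bound
          have hη : 0 ≤ y - γ := hg.eta
          have hqf1 : 0 < f 1 := by rw [← hqf]; exact hq0
          have han1 : q ^ 2 < asum f n1 := by
            have h1 := h.u_low hqf1 n1 n1 le_rfl
            rw [← hqf] at h1
            have h2 := h1.trans_lt hn1
            rw [hγ] at h2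
            have h3 := Real.exp_lt_exp.mp h2
            have h4 : q < asum f n1 / q := by linarith
            rw [lt_div_iff₀ hq0] at h4
            nlinarith
          have han1' : q ^ 2 - (1 - q) < asum f (n1 - 1) := by
            obtain ⟨z, rfl⟩ : ∃ z, n1 = z + 1 := ⟨n1 - 1, by omega⟩
            rw [asum_succ] at han1
            have := h.lam_anti (show 1 ≤ z + 1 by omega)
            rw [h.lam_one, ← hqf] at this
            simp only [Nat.add_sub_cancel]
            linarith
          obtain ⟨N, hNn1, hN1, hN2⟩ : ∃ N, N ≤ n1 - 1 ∧ q ^ 2 - (1 - q) ≤ asum f N ∧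
              asum f N ≤ q ^ 2 := by
            classical
            have hex : ∃ N, q ^ 2 - (1 - q) ≤ asum f N := ⟨n1 - 1, han1'.le⟩
            refine ⟨Nat.find hex, Nat.find_min' hex han1'.le, Nat.find_spec hex, ?_⟩
            rcases Nat.eq_zero_or_pos (Nat.find hex) with h0 | h0
            · rw [h0]; simp [asum]; positivity
            · obtain ⟨z, hz⟩ : ∃ z, Nat.find hex = z + 1 := ⟨Nat.find hex - 1, by omega⟩
              have h1 := Nat.find_min hex (m := z) (by omega)
              push Not at h1
              rw [hz, asum_succ]
              have := h.lam_anti (show 1 ≤ z + 1 by omega)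
              rw [h.lam_one, ← hqf] at this
              linarith
          have hlog : ∀ x, x < n1 → -Real.log (u x) ≤ asum f x / q := by
            intro x hx
            have h1 := h.u_low hqf1 x x le_rfl
            rw [← hqf] at h1
            have h2 := Real.log_le_log (Real.exp_pos _) h1
            rw [Real.log_exp] at h2
            linarith
          have hlogq : ∀ x, x < n1 → -Real.log (u x) ≤ q := by
            intro x hx
            have h2 := Real.log_le_log hγ0 (hfirst x hx)
            rw [hγ, Real.log_exp] at h2
            linarith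
          have hlow1 : ∑ x ∈ range N,
              lam f (x + 1) * (y - (1 + -Real.log (u (x + 1))) * (y - γ) / q)
              ≤ ∑ x ∈ range (n1 - 1),
              lam f (x + 1) * (y - (1 + -Real.log (u (x + 1))) * (y - γ) / q) := by
            apply sum_le_sum_of_subset_of_nonneg (range_subset_range.mpr hNn1)
            intro x hx _
            rw [mem_range] at hx
            apply mul_nonneg (h.lam_nonneg _)
            have h1 := hlogq (x + 1) (by omega)
            have h2 : (1 + -Real.log (u (x + 1))) * (y - γ) / q ≤ (1 + q) * (y - γ) / q := by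
              apply div_le_div_of_nonneg_right _ hq0.le
              apply mul_le_mul_of_nonneg_right _ hη
              linarith
            have h3 : (1 + q) * (y - γ) / q ≤ y := hg.pos1
            linarith
          have hlow2 : ∑ x ∈ range N, (lam f (x + 1) * (y - (y - γ) / q)
              - (y - γ) / q ^ 2 * (lam f (x + 1) * asum f (x + 1)))
              ≤ ∑ x ∈ range N,
              lam f (x + 1) * (y - (1 + -Real.log (u (x + 1))) * (y - γ) / q) := by
            apply sum_le_sum
            intro x hx
            rw [mem_range] at hx
            have h1 := hlog (x + 1) (by omega)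
            have h2 : (1 + -Real.log (u (x + 1))) * (y - γ) / q
                ≤ (1 + asum f (x + 1) / q) * (y - γ) / q := by
              apply div_le_div_of_nonneg_right _ hq0.le
              apply mul_le_mul_of_nonneg_right _ hη
              linarith
            have h3 : lam f (x + 1) * (y - (y - γ) / q)
              - (y - γ) / q ^ 2 * (lam f (x + 1) * asum f (x + 1))
              = lam f (x + 1) * (y - (1 + asum f (x + 1) / q) * (y - γ) / q) := by
              field_simp; ring
            rw [h3]
            apply mul_le_mul_of_nonneg_left _ (h.lam_nonneg _)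
            linarith
          rw [sum_sub_distrib, ← sum_mul, ← mul_sum] at hlow2
          have hs1 : ∑ x ∈ range N, lam f (x + 1) = asum f N := rfl
          rw [hs1] at hlow2
          have hsq := h.asum_sq N
          rw [← hqf] at hsq
          have hηq : 0 ≤ (y - γ) / q ^ 2 := by positivity
          have h7 := mul_le_mul_of_nonneg_left hsq hηq
          have haN : 0 < asum f N := lt_of_lt_of_le hg.theta hN1
          have h8 : (y - γ) / q ^ 2 * ((asum f N ^ 2 + (1 - q) * asum f N) / 2)
              ≤ asum f N * ((y - γ) / (2 * q ^ 2)) := by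
            have e1 : (y - γ) / q ^ 2 * ((asum f N ^ 2 + (1 - q) * asum f N) / 2)
                = asum f N * ((y - γ) / (2 * q ^ 2)) * (asum f N + (1 - q)) := by
              field_simp
            rw [e1]
            have e2 : asum f N + (1 - q) ≤ 1 := by nlinarith
            have e3 : 0 ≤ asum f N * ((y - γ) / (2 * q ^ 2)) :=
              mul_nonneg haN.le (by positivity)
            nlinarith
          have h9 : (q ^ 2 - (1 - q)) * (y - (y - γ) / q - (y - γ) / (2 * q ^ 2))
              ≤ asum f N * (y - (y - γ) / q - (y - γ) / (2 * q ^ 2)) :=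
            mul_le_mul_of_nonneg_right hN1 hg.pos2
          have h10 : 1 - 2 * γ ≤ (q ^ 2 - (1 - q)) *
            (y - (y - γ) / q - (y - γ) / (2 * q ^ 2)) := hg.main
          nlinarith
      refine ⟨?_, hmain⟩
      unfold er at hmain
      have h8 : 0 ≤ q * Del γ u n := by linarith
      exact nonneg_of_mul_nonneg_right h8 hq0

/-- The discrete inequality. -/
theorem Ren.bound (h : Ren f u) (hg : Good (f 1)) (s w : ℕ) :
    u (s + w) ≤ Real.exp (f 1 * (u s - 1)) / f 1 :=
  h.T1bound rfl (by linarith [hg.half]) s w (fun j _ => (h.main_ind rfl hg j).1)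

end T2h54.PF
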