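import Pool.Agent.T2h54.PF.Main

/-!
# The numerical conditions hold for `q` close to one
-/

namespace T2h54.PF

open Filter Topology

lemma y_one_upper : Real.exp (Real.exp (-1) - 1) < 0.5461 := by
  have h1 := Real.exp_neg_one_gt_d9
  have h2 := Real.exp_neg_one_lt_d9
  set t := 1 - Real.exp (-1) with ht
  have ht1 : 0.632 < t := by rw [ht]; norm_num at *; linarith
  have h3 : 1 + t + t ^ 2 / 2 ≤ Real.exp t := Real.quadratic_le_exp_of_nonneg (by linarith)
  have h4 : 1.8317 < Real.exp t := by nlinarith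
  have h5 : Real.exp (Real.exp (-1) - 1) = (Real.exp t)⁻¹ := by
    rw [← Real.exp_neg]; congr 1; rw [ht]; ring
  rw [h5]
  have h6 : (Real.exp t)⁻¹ < (1.8317 : ℝ)⁻¹ := inv_strictAnti₀ (by norm_num) h4
  refine h6.trans ?_
  norm_num

lemma good_near : ∃ q0 : ℝ, q0 < 1 ∧ 0 < q0 ∧ ∀ q, q0 < q → q ≤ 1 → Good q := by
  have h1 := Real.exp_neg_one_gt_d9
  have h2 := Real.exp_neg_one_lt_d9
  have h3 := y_one_upper
  have h3' : Real.exp (-1) < Real.exp (Real.exp (-1) - 1) := by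
    apply Real.exp_lt_exp.mpr; linarith [Real.exp_pos (-1)]
  have hne : (1 : ℝ) ≠ 0 := one_ne_zero
  have hid : ContinuousAt (fun q : ℝ => q) 1 := continuousAt_id
  have hexp : ContinuousAt (fun q : ℝ => Real.exp (-q)) 1 := by fun_prop
  have hy : ContinuousAt (fun q : ℝ => Real.exp (q * (Real.exp (-q) - 1)) / q) 1 := by
    apply ContinuousAt.div _ hid hne
    fun_prop
  have hη : ContinuousAt (fun q : ℝ => Real.exp (q * (Real.exp (-q) - 1)) / q
      - Real.exp (-q)) 1 := hy.sub hexp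
  have hbr : ContinuousAt (fun q : ℝ => Real.exp (q * (Real.exp (-q) - 1)) / q
    - (Real.exp (q * (Real.exp (-q) - 1)) / q - Real.exp (-q)) / q
    - (Real.exp (q * (Real.exp (-q) - 1)) / q - Real.exp (-q)) / (2 * q ^ 2)) 1 := by
    apply ContinuousAt.sub
    · exact hy.sub (hη.div hid hne)
    · apply hη.div (by fun_prop)
      norm_num
  have c1 : ∀ᶠ q : ℝ in 𝓝 1, 1 / 2 < q := hid.eventually_const_lt (by norm_num)
  have c2 : ∀ᶠ q : ℝ in 𝓝 1, 0 < q ^ 2 - (1 - q) :=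
    (show ContinuousAt (fun q : ℝ => q ^ 2 - (1 - q)) 1 by fun_prop).eventually_const_lt
      (by norm_num)
  have c3 : ∀ᶠ q : ℝ in 𝓝 1, 0 < Real.exp (q * (Real.exp (-q) - 1)) / q - Real.exp (-q) :=
    hη.eventually_const_lt (by
      show 0 < Real.exp (1 * (Real.exp (-1) - 1)) / 1 - Real.exp (-1)
      rw [one_mul, div_one]; linarith)
  have c4 : ∀ᶠ q : ℝ in 𝓝 1, (1 + q) * (Real.exp (q * (Real.exp (-q) - 1)) / q
      - Real.exp (-q)) / q < Real.exp (q * (Real.exp (-q) - 1)) / q := by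
    apply ContinuousAt.eventually_lt _ hy
    · norm_num at *; linarith
    · exact ((continuousAt_const.add hid).mul hη).div hid hne
  have c5 : ∀ᶠ q : ℝ in 𝓝 1, 0 < Real.exp (q * (Real.exp (-q) - 1)) / q
    - (Real.exp (q * (Real.exp (-q) - 1)) / q - Real.exp (-q)) / q
    - (Real.exp (q * (Real.exp (-q) - 1)) / q - Real.exp (-q)) / (2 * q ^ 2) :=
    hbr.eventually_const_lt (by norm_num at *; linarith)
  have c6 : ∀ᶠ q : ℝ in 𝓝 1, 1 - 2 * Real.exp (-q) < (q ^ 2 - (1 - q)) *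
    (Real.exp (q * (Real.exp (-q) - 1)) / q
    - (Real.exp (q * (Real.exp (-q) - 1)) / q - Real.exp (-q)) / q
    - (Real.exp (q * (Real.exp (-q) - 1)) / q - Real.exp (-q)) / (2 * q ^ 2)) := by
    apply ContinuousAt.eventually_lt
    · fun_prop
    · exact ContinuousAt.mul (by fun_prop) hbr
    · norm_num at *; linarith
  have call := c1.and (c2.and (c3.and (c4.and (c5.and c6))))
  rw [Filter.Eventually, mem_nhds_iff_exists_Ioo_subset] at call
  obtain ⟨l, r, hlr, hsub⟩ := call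
  refine ⟨max l (1 / 2), max_lt hlr.1 (by norm_num), lt_max_of_lt_right (by norm_num), ?_⟩
  intro q hq1 hq2
  obtain ⟨d1, d2, d3, d4, d5, d6⟩ := hsub ⟨(le_max_left _ _).trans_lt hq1, hq2.trans_lt hlr.2⟩
  exact ⟨hq2, d1, d2, d3.le, d4.le, d5.le, d6.le⟩

end T2h54.PF
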