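import Pool.Agent.T2h54.PF.Defs

/-!
# The on/off example

On-periods are independent exponentials of rate `r`, off-periods have fixed length `a`.
-/

namespace T2h54.PF

open MeasureTheory Filter Topology Set ProbabilityTheory
open scoped NNReal ENNReal

/-- Prepend a real number to a sequence. -/
def cons (x : ℝ) (ω : ℕ → ℝ) : ℕ → ℝ := fun n => Nat.casesOn n x ω

@[simp] lemma cons_zero (x : ℝ) (ω : ℕ → ℝ) : cons x ω 0 = x := rfl
@[simp] lemma cons_succ (x : ℝ) (ω : ℕ → ℝ) (n : ℕ) : cons x ω (n + 1) = ω n := rfl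

/-- The tail of a sequence. -/
def tl (ω : ℕ → ℝ) : ℕ → ℝ := fun n => ω (n + 1)

@[simp] lemma tl_cons (x : ℝ) (ω : ℕ → ℝ) : tl (cons x ω) = ω := rfl

lemma measurable_cons : Measurable (fun z : ℝ × (ℕ → ℝ) => cons z.1 z.2) := by
  rw [measurable_pi_iff]
  intro n
  cases n with
  | zero => exact measurable_fst
  | succ n => exact (measurable_pi_apply n).comp measurable_snd

lemma measurable_tl : Measurable tl := by
  unfold tl
  rw [measurable_pi_iff]
  intro n
  exact measurable_pi_apply (n + 1)

section

variable (ν : Measure ℝ) [IsProbabilityMeasure ν]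

/-- The law of an i.i.d. sequence. -/
noncomputable def iid : Measure (ℕ → ℝ) := Measure.infinitePi (fun _ : ℕ => ν)

instance : IsProbabilityMeasure (iid ν) := by unfold iid; infer_instance

lemma map_cons : (ν.prod (iid ν)).map (fun z => cons z.1 z.2) = iid ν := by
  unfold iid
  apply Measure.eq_infinitePi
  intro s t ht
  classical
  obtain ⟨N, hN⟩ : ∃ N, s ⊆ Finset.range (N + 1) := by
    refine ⟨s.sup id, fun i hi => ?_⟩
    rw [Finset.mem_range]
    have : i ≤ s.sup id := Finset.le_sup (f := id) hi
    omega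
  set t' : ℕ → Set ℝ := fun i => if i ∈ s then t i else Set.univ with ht'
  have ht'm : ∀ i, MeasurableSet (t' i) := by
    intro i; simp only [ht']; split_ifs
    · exact ht i
    · exact MeasurableSet.univ
  have h1 : Set.pi (↑s) t = Set.pi (↑(Finset.range (N + 1))) t' := by
    ext ω
    simp only [Set.mem_pi, Finset.mem_coe, ht']
    constructor
    · intro h i _
      split_ifs with hi
      · exact h i hi
      · trivial
    · intro h i hi
      have := h i (hN hi)
      rwa [if_pos hi] at this
  have h2 : ∏ i ∈ s, ν (t i) = ∏ i ∈ Finset.range (N + 1), ν (t' i) := by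
    rw [← Finset.prod_subset hN]
    · apply Finset.prod_congr rfl
      intro i hi
      simp only [ht', if_pos hi]
    · intro i _ hi
      simp only [ht', if_neg hi, measure_univ]
  rw [h1, h2, Measure.map_apply measurable_cons
    (MeasurableSet.pi (Finset.countable_toSet _) (fun i _ => ht'm i))]
  have h3 : (fun z : ℝ × (ℕ → ℝ) => cons z.1 z.2) ⁻¹' (Set.pi (↑(Finset.range (N + 1))) t')
      = (t' 0) ×ˢ (Set.pi (↑(Finset.range N)) (fun i => t' (i + 1))) := by
    ext z
    simp only [Set.mem_preimage, Set.mem_pi, Finset.mem_coe, Finset.mem_range, Set.mem_prod]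
    constructor
    · intro h
      exact ⟨h 0 (by omega), fun i hi => h (i + 1) (by omega)⟩
    · rintro ⟨h4, h5⟩ i hi
      cases i with
      | zero => exact h4
      | succ i => exact h5 i (by omega)
  rw [h3, Measure.prod_prod, Measure.infinitePi_pi _ (fun i _ => ht'm (i + 1)),
    Finset.prod_range_succ']
  ring

lemma iid_eq {C : Set (ℕ → ℝ)} (hC : MeasurableSet C) :
    iid ν C = ∫⁻ x, iid ν {ω | cons x ω ∈ C} ∂ν := by
  conv_lhs => rw [← map_cons ν]
  rw [Measure.map_apply measurable_cons hC, Measure.prod_apply (measurable_cons hC)]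
  rfl

lemma iid_coord {B : Set ℝ} (hB : MeasurableSet B) (i : ℕ) : iid ν {ω | ω i ∈ B} = ν B := by
  have h1 : {ω : ℕ → ℝ | ω i ∈ B} = Set.pi (↑({i} : Finset ℕ)) (fun _ => B) := by
    ext ω; simp
  rw [h1]
  unfold iid
  rw [Measure.infinitePi_pi _ (fun _ _ => hB)]
  simp

end

end T2h54.PF
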