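import Pool.Agent.T2h54.PF.OnOff

/-!
# The on/off process and its regeneration property
-/

namespace T2h54.PF

open MeasureTheory Filter Topology Set ProbabilityTheory
open scoped NNReal ENNReal

/-- `(t, ω) ∈ A a n`: at time `t` the process is on, after exactly `n` completed off-periods. -/
def A (a : ℝ) : ℕ → Set (ℝ × (ℕ → ℝ))
  | 0 => {z | z.1 < z.2 0}
  | (n + 1) => {z | z.2 0 + a ≤ z.1 ∧ (z.1 - a - z.2 0, tl z.2) ∈ A a n}

/-- The sequence of on-periods seen from time `t`. -/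
def Θ (a : ℝ) : ℕ → ℝ × (ℕ → ℝ) → (ℕ → ℝ)
  | 0 => fun z => cons (z.2 0 - z.1) (tl z.2)
  | (n + 1) => fun z => Θ a n (z.1 - a - z.2 0, tl z.2)

lemma mem_A_zero {a t : ℝ} {ω : ℕ → ℝ} : (t, ω) ∈ A a 0 ↔ t < ω 0 := Iff.rfl
lemma mem_A_succ {a t : ℝ} {ω : ℕ → ℝ} {n : ℕ} : (t, ω) ∈ A a (n + 1) ↔
    ω 0 + a ≤ t ∧ (t - a - ω 0, tl ω) ∈ A a n := Iff.rfl
lemma Θ_zero {a t : ℝ} {ω : ℕ → ℝ} : Θ a 0 (t, ω) = cons (ω 0 - t) (tl ω) := rfl
lemma Θ_succ {a t : ℝ} {ω : ℕ → ℝ} {n : ℕ} :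
    Θ a (n + 1) (t, ω) = Θ a n (t - a - ω 0, tl ω) := rfl

lemma measurable_step (a : ℝ) :
    Measurable (fun z : ℝ × (ℕ → ℝ) => ((z.1 - a - z.2 0, tl z.2) : ℝ × (ℕ → ℝ))) := by
  have h0 : Measurable (fun z : ℝ × (ℕ → ℝ) => z.2 0) :=
    (measurable_pi_apply 0).comp measurable_snd
  exact ((measurable_fst.sub_const a).sub h0).prodMk (measurable_tl.comp measurable_snd)

lemma measurableSet_A (a : ℝ) : ∀ n, MeasurableSet (A a n) := by
  have h0 : Measurable (fun z : ℝ × (ℕ → ℝ) => z.2 0) :=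
    (measurable_pi_apply 0).comp measurable_snd
  intro n
  induction n with
  | zero => exact measurableSet_lt measurable_fst h0
  | succ n ih =>
    exact (measurableSet_le (h0.add_const a) measurable_fst).inter (measurable_step a ih)

lemma measurable_Θ (a : ℝ) : ∀ n, Measurable (Θ a n) := by
  have h0 : Measurable (fun z : ℝ × (ℕ → ℝ) => z.2 0) :=
    (measurable_pi_apply 0).comp measurable_snd
  intro n
  induction n with
  | zero =>
    have h1 : Measurable (fun z : ℝ × (ℕ → ℝ) => ((z.2 0 - z.1, tl z.2) : ℝ × (ℕ → ℝ))) :=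
      (h0.sub measurable_fst).prodMk (measurable_tl.comp measurable_snd)
    exact measurable_cons.comp h1
  | succ n ih => exact ih.comp (measurable_step a)

lemma cocycle {a : ℝ} (ha : 0 ≤ a) : ∀ (n : ℕ) (t s : ℝ) (ω : ℕ → ℝ), 0 ≤ t → 0 ≤ s →
    (t, ω) ∈ A a n → ((∃ m, (t + s, ω) ∈ A a m) ↔ (∃ m, (s, Θ a n (t, ω)) ∈ A a m)) := by
  intro n
  induction n with
  | zero =>
    intro t s ω ht hs h
    apply exists_congr
    intro m
    rw [Θ_zero]
    cases m with
    | zero =>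
      rw [mem_A_zero, mem_A_zero, cons_zero]
      constructor <;> intro h1 <;> linarith
    | succ k =>
      rw [mem_A_succ, mem_A_succ, cons_zero, tl_cons]
      have e1 : s - a - (ω 0 - t) = t + s - a - ω 0 := by ring
      rw [e1]
      constructor
      · rintro ⟨h1, h2⟩; exact ⟨by linarith, h2⟩
      · rintro ⟨h1, h2⟩; exact ⟨by linarith, h2⟩
  | succ n ih =>
    intro t s ω ht hs h
    rw [mem_A_succ] at h
    obtain ⟨h1, h2⟩ := h
    have h3 := ih (t - a - ω 0) s (tl ω) (by linarith) hs h2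
    rw [Θ_succ, ← h3]
    constructor
    · rintro ⟨m, hm⟩
      cases m with
      | zero =>
        rw [mem_A_zero] at hm
        exfalso; linarith
      | succ k =>
        rw [mem_A_succ] at hm
        refine ⟨k, ?_⟩
        have e1 : t - a - ω 0 + s = t + s - a - ω 0 := by ring
        rw [e1]; exact hm.2
    · rintro ⟨m, hm⟩
      refine ⟨m + 1, ?_⟩
      rw [mem_A_succ]
      have e1 : t - a - ω 0 + s = t + s - a - ω 0 := by ring
      rw [e1] at hm
      exact ⟨by linarith, hm⟩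

lemma A_disjoint {a : ℝ} (ha : 0 ≤ a) : ∀ (n m : ℕ) (t : ℝ) (ω : ℕ → ℝ),
    (t, ω) ∈ A a n → (t, ω) ∈ A a m → n = m := by
  intro n
  induction n with
  | zero =>
    intro m t ω h1 h2
    cases m with
    | zero => rfl
    | succ m =>
      rw [mem_A_zero] at h1
      rw [mem_A_succ] at h2
      exfalso; linarith [h2.1]
  | succ n ih =>
    intro m t ω h1 h2
    rw [mem_A_succ] at h1
    cases m with
    | zero =>
      rw [mem_A_zero] at h2
      exfalso; linarith [h1.1]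
    | succ m =>
      rw [mem_A_succ] at h2
      rw [ih m _ _ h1.2 h2.2]

section

variable {ν : Measure ℝ} [IsProbabilityMeasure ν] {r : ℝ}

/-- Lack of memory. -/
lemma memoryless (hr : 0 ≤ r) (hν : ∀ t : ℝ, 0 ≤ t → ν (Ioi t) = ENNReal.ofReal (Real.exp (-(r * t))))
    {t : ℝ} (ht : 0 ≤ t) : (ν.restrict (Ioi t)).map (fun x => x - t)
      = ENNReal.ofReal (Real.exp (-(r * t))) • ν := by
  have hmeas : Measurable (fun x : ℝ => x - t) := measurable_id.sub_const t
  have hfin : IsFiniteMeasure ((ν.restrict (Ioi t)).map (fun x => x - t)) := inferInstance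
  apply Measure.ext_of_Iic
  intro b
  rw [Measure.map_apply hmeas measurableSet_Iic,
    Measure.restrict_apply (hmeas measurableSet_Iic), Measure.smul_apply, smul_eq_mul]
  have h1 : (fun x : ℝ => x - t) ⁻¹' Iic b ∩ Ioi t = Ioi t \ Ioi (t + b) := by
    ext x
    constructor
    · rintro ⟨h1, h2⟩
      refine ⟨h2, fun h3 => ?_⟩
      have h4 : x - t ≤ b := h1
      have h5 : t + b < x := h3
      linarith
    · rintro ⟨h1, h2⟩
      refine ⟨?_, h1⟩
      show x - t ≤ b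
      by_contra hc
      push Not at hc
      exact h2 (show t + b < x by linarith)
  have hIic : ∀ c : ℝ, 0 ≤ c → ν (Iic c) = ENNReal.ofReal (1 - Real.exp (-(r * c))) := by
    intro c hc
    have : Iic c = (Ioi c)ᶜ := by ext; simp
    rw [this, prob_compl_eq_one_sub measurableSet_Ioi, hν c hc,
      ENNReal.ofReal_sub _ (Real.exp_pos _).le, ENNReal.ofReal_one]
  rcases le_or_gt 0 b with hb | hb
  · rw [h1, measure_sdiff (Ioi_subset_Ioi (by linarith)) measurableSet_Ioi.nullMeasurableSet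
      (measure_ne_top _ _), hν t ht, hν (t + b) (by linarith), hIic b hb,
      ← ENNReal.ofReal_sub _ (Real.exp_pos _).le, ← ENNReal.ofReal_mul (Real.exp_pos _).le]
    congr 1
    rw [mul_sub, mul_one, ← Real.exp_add]
    congr 2; ring
  · have h2 : Ioi t \ Ioi (t + b) = (∅ : Set ℝ) := by
      rw [Set.eq_empty_iff_forall_notMem]
      rintro x ⟨h3, h4⟩
      have h5 : t < x := h3
      exact h4 (show t + b < x by linarith)
    have h3 : ν (Iic b) = 0 := by
      have h4 : ν (Iic b) ≤ ν (Iic 0) := measure_mono (Iic_subset_Iic.mpr hb.le)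
      rw [hIic 0 le_rfl] at h4
      simpa using h4
    rw [h1, h2, h3, measure_empty, mul_zero]

/-- The regeneration property at a fixed time. -/
lemma regen (hr : 0 ≤ r) (hν : ∀ t : ℝ, 0 ≤ t → ν (Ioi t) = ENNReal.ofReal (Real.exp (-(r * t))))
    (a : ℝ) {B : Set (ℕ → ℝ)} (hB : MeasurableSet B) : ∀ (n : ℕ) (t : ℝ), 0 ≤ t →
    iid ν {ω | (t, ω) ∈ A a n ∧ Θ a n (t, ω) ∈ B} = iid ν {ω | (t, ω) ∈ A a n} * iid ν B := by
  have hslice : ∀ t : ℝ, Measurable (fun ω : ℕ → ℝ => ((t, ω) : ℝ × (ℕ → ℝ))) :=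
    fun t => measurable_const.prodMk measurable_id
  have hm1 : ∀ n t, MeasurableSet {ω : ℕ → ℝ | (t, ω) ∈ A a n} :=
    fun n t => hslice t (measurableSet_A a n)
  have hm2 : ∀ n t (C : Set (ℕ → ℝ)), MeasurableSet C →
      MeasurableSet {ω : ℕ → ℝ | (t, ω) ∈ A a n ∧ Θ a n (t, ω) ∈ C} :=
    fun n t C hC => (hm1 n t).inter (((measurable_Θ a n).comp (hslice t)) hC)
  intro n
  induction n with
  | zero =>
    intro t ht
    -- the formula for a general set
    have hgen : ∀ C : Set (ℕ → ℝ), MeasurableSet C →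
        iid ν {ω | (t, ω) ∈ A a 0 ∧ Θ a 0 (t, ω) ∈ C}
          = ENNReal.ofReal (Real.exp (-(r * t))) * iid ν C := by
      intro C hC
      rw [iid_eq ν (hm2 0 t C hC)]
      have hg : Measurable (fun y => iid ν {ω | cons y ω ∈ C}) :=
        measurable_measure_prodMk_left (measurable_cons hC)
      have h1 : ∀ x : ℝ, iid ν {ω | cons x ω ∈ {ω | (t, ω) ∈ A a 0 ∧ Θ a 0 (t, ω) ∈ C}}
          = (Ioi t).indicator (fun x => iid ν {ω | cons (x - t) ω ∈ C}) x := by
        intro x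
        by_cases hx : t < x
        · rw [indicator_of_mem (show x ∈ Ioi t from hx)]
          congr 1
          ext ω
          simp only [Set.mem_ofPred_eq, mem_A_zero, Θ_zero, cons_zero, tl_cons]
          tauto
        · rw [indicator_of_notMem (show x ∉ Ioi t from hx)]
          have : {ω | cons x ω ∈ {ω | (t, ω) ∈ A a 0 ∧ Θ a 0 (t, ω) ∈ C}} = (∅ : Set (ℕ → ℝ)) := by
            ext ω
            simp only [Set.mem_ofPred_eq, mem_A_zero, Θ_zero, cons_zero, tl_cons, mem_empty_iff_false]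
            tauto
          rw [this, measure_empty]
      rw [lintegral_congr h1, lintegral_indicator measurableSet_Ioi]
      have h2 : ∫⁻ x in Ioi t, iid ν {ω | cons (x - t) ω ∈ C} ∂ν
          = ∫⁻ y, iid ν {ω | cons y ω ∈ C} ∂((ν.restrict (Ioi t)).map (fun x => x - t)) := by
        have hmt : Measurable (fun x : ℝ => x - t) := measurable_id.sub_const t
        rw [lintegral_map hg hmt]
      rw [h2, memoryless hr hν ht, lintegral_smul_measure, ← iid_eq ν hC, smul_eq_mul]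
    rw [hgen B hB]
    have h3 := hgen Set.univ MeasurableSet.univ
    simp only [mem_univ, and_true, measure_univ, mul_one] at h3
    rw [h3]
  | succ n ih =>
    intro t ht
    rw [iid_eq ν (hm2 (n + 1) t B hB), iid_eq ν (hm1 (n + 1) t)]
    rw [← lintegral_mul_const' _ _ (measure_ne_top _ _)]
    apply lintegral_congr
    intro x
    by_cases hx : x + a ≤ t
    · have h1 : {ω | cons x ω ∈ {ω | (t, ω) ∈ A a (n + 1) ∧ Θ a (n + 1) (t, ω) ∈ B}}
          = {ω | (t - a - x, ω) ∈ A a n ∧ Θ a n (t - a - x, ω) ∈ B} := by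
        ext ω
        simp only [Set.mem_ofPred_eq, mem_A_succ, Θ_succ, cons_zero, tl_cons]
        tauto
      have h2 : {ω | cons x ω ∈ {ω | (t, ω) ∈ A a (n + 1)}}
          = {ω | (t - a - x, ω) ∈ A a n} := by
        ext ω
        simp only [Set.mem_ofPred_eq, mem_A_succ, cons_zero, tl_cons]
        tauto
      rw [h1, h2]
      exact ih (t - a - x) (by linarith)
    · have h1 : {ω | cons x ω ∈ {ω | (t, ω) ∈ A a (n + 1) ∧ Θ a (n + 1) (t, ω) ∈ B}}
          = (∅ : Set (ℕ → ℝ)) := by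
        ext ω
        simp only [Set.mem_ofPred_eq, mem_A_succ, Θ_succ, cons_zero, tl_cons, mem_empty_iff_false]
        tauto
      have h2 : {ω | cons x ω ∈ {ω | (t, ω) ∈ A a (n + 1)}} = (∅ : Set (ℕ → ℝ)) := by
        ext ω
        simp only [Set.mem_ofPred_eq, mem_A_succ, cons_zero, tl_cons, mem_empty_iff_false]
        tauto
      rw [h1, h2, measure_empty, zero_mul]

/-- The on-event at time `t`. -/
def Ev (a : ℝ) (t : ℝ≥0) : Set (ℕ → ℝ) := {ω | ∃ n, ((t : ℝ), ω) ∈ A a n}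

lemma measurableSet_Ev (a : ℝ) (t : ℝ≥0) : MeasurableSet (Ev a t) := by
  have : Ev a t = ⋃ n, {ω | ((t : ℝ), ω) ∈ A a n} := by
    ext ω; simp [Ev]
  rw [this]
  exact MeasurableSet.iUnion
    (fun n => (measurable_const.prodMk measurable_id) (measurableSet_A a n))

lemma Ev_regen (hr : 0 ≤ r) (hν : ∀ t : ℝ, 0 ≤ t → ν (Ioi t) = ENNReal.ofReal (Real.exp (-(r * t))))
    {a : ℝ} (ha : 0 ≤ a) (t : ℝ≥0) {B : Set (ℕ → ℝ)} (hB : MeasurableSet B) :
    iid ν (⋃ n, {ω | ((t : ℝ), ω) ∈ A a n ∧ Θ a n ((t : ℝ), ω) ∈ B})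
      = iid ν (Ev a t) * iid ν B := by
  have hslice : Measurable (fun ω : ℕ → ℝ => (((t : ℝ), ω) : ℝ × (ℕ → ℝ))) :=
    measurable_const.prodMk measurable_id
  have hm1 : ∀ n, MeasurableSet {ω : ℕ → ℝ | ((t : ℝ), ω) ∈ A a n} :=
    fun n => hslice (measurableSet_A a n)
  have hm2 : ∀ n, MeasurableSet {ω : ℕ → ℝ | ((t : ℝ), ω) ∈ A a n ∧ Θ a n ((t : ℝ), ω) ∈ B} :=
    fun n => (hm1 n).inter (((measurable_Θ a n).comp hslice) hB)
  have hd : Pairwise (Function.onFun Disjoint fun n => {ω : ℕ → ℝ | ((t : ℝ), ω) ∈ A a n}) := by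
    intro n m hnm
    rw [Function.onFun, Set.disjoint_left]
    intro ω h1 h2
    exact hnm (A_disjoint ha n m _ ω h1 h2)
  have hE : Ev a t = ⋃ n, {ω | ((t : ℝ), ω) ∈ A a n} := by
    ext ω; simp [Ev]
  rw [measure_iUnion _ hm2, hE, measure_iUnion hd hm1, ← ENNReal.tsum_mul_right]
  · congr 1
    funext n
    exact regen hr hν a hB n t t.2
  · intro n m hnm
    exact (hd hnm).mono (fun ω h => h.1) (fun ω h => h.1)

theorem Ev_prod (hr : 0 ≤ r) (hν : ∀ t : ℝ, 0 ≤ t → ν (Ioi t) = ENNReal.ofReal (Real.exp (-(r * t))))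
    {a : ℝ} (ha : 0 ≤ a) (n : ℕ) (t : Fin (n + 1) → ℝ≥0) (htm : Monotone t) :
    iid ν (⋂ i, Ev a (t i)) = iid ν (Ev a (t 0)) * iid ν (⋂ i : Fin n, Ev a (t i.succ - t 0)) := by
  have hB : MeasurableSet (⋂ i : Fin n, Ev a (t i.succ - t 0)) :=
    MeasurableSet.iInter (fun i => measurableSet_Ev a _)
  rw [← Ev_regen hr hν ha (t 0) hB]
  congr 1
  ext ω
  simp only [mem_iInter, mem_iUnion, Set.mem_ofPred_eq]
  constructor
  · intro h
    obtain ⟨k, hk⟩ := h 0
    refine ⟨k, hk, fun i => ?_⟩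
    have h1 := h i.succ
    have h2 := cocycle ha k (t 0 : ℝ) ((t i.succ - t 0 : ℝ≥0) : ℝ) ω (t 0).2
      (t i.succ - t 0).2 hk
    have h3 : ((t 0 : ℝ≥0) : ℝ) + ((t i.succ - t 0 : ℝ≥0) : ℝ) = ((t i.succ : ℝ≥0) : ℝ) := by
      rw [← NNReal.coe_add, add_tsub_cancel_of_le (htm (Fin.zero_le _))]
    rw [h3] at h2
    exact h2.mp h1
  · rintro ⟨k, hk, h⟩ i
    refine Fin.cases ?_ (fun i => ?_) i
    · exact ⟨k, hk⟩
    · have h2 := cocycle ha k (t 0 : ℝ) ((t i.succ - t 0 : ℝ≥0) : ℝ) ω (t 0).2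
        (t i.succ - t 0).2 hk
      have h3 : ((t 0 : ℝ≥0) : ℝ) + ((t i.succ - t 0 : ℝ≥0) : ℝ) = ((t i.succ : ℝ≥0) : ℝ) := by
        rw [← NNReal.coe_add, add_tsub_cancel_of_le (htm (Fin.zero_le _))]
      rw [h3] at h2
      exact h2.mpr (h i)

end

end T2h54.PF
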