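import Mathlib

/-!
# Renewal sequences: basic algebra

`Ren f u` says that `u` is the renewal sequence with first-return weights `f`
(`f 0 = 0`, `f ≥ 0`, partial sums at most one).
-/

namespace T2h54.PF

open Finset

/-- Convolution of two sequences. -/
noncomputable def cv (a b : ℕ → ℝ) (n : ℕ) : ℝ := ∑ k ∈ range (n + 1), a k * b (n - k)

lemma mk_cv (a b : ℕ → ℝ) :
    PowerSeries.mk (cv a b) = PowerSeries.mk a * PowerSeries.mk b := by
  ext n
  rw [PowerSeries.coeff_mul, PowerSeries.coeff_mk]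
  simp only [PowerSeries.coeff_mk]
  rw [Finset.Nat.sum_antidiagonal_eq_sum_range_succ (fun i j => a i * b j) n]
  rfl

lemma mk_inj {a b : ℕ → ℝ} (h : PowerSeries.mk a = PowerSeries.mk b) : a = b := by
  funext n
  have := congrArg (PowerSeries.coeff n) h
  simpa [PowerSeries.coeff_mk] using this

lemma cv_comm (a b : ℕ → ℝ) : cv a b = cv b a := by
  apply mk_inj; rw [mk_cv, mk_cv, mul_comm]

lemma cv_assoc (a b c : ℕ → ℝ) : cv (cv a b) c = cv a (cv b c) := by
  apply mk_inj; rw [mk_cv, mk_cv, mk_cv, mk_cv, mul_assoc]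

lemma cv_add (a b c : ℕ → ℝ) : cv a (fun n => b n + c n) = fun n => cv a b n + cv a c n := by
  funext n; simp only [cv, mul_add, sum_add_distrib]

lemma cv_sub (a b c : ℕ → ℝ) : cv a (fun n => b n - c n) = fun n => cv a b n - cv a c n := by
  funext n; simp only [cv, mul_sub, sum_sub_distrib]

lemma cv_smul (a b : ℕ → ℝ) (r : ℝ) : cv a (fun n => r * b n) = fun n => r * cv a b n := by
  funext n; simp only [cv, mul_sum]; exact sum_congr rfl (fun _ _ => by ring)

lemma cv_zero (a b : ℕ → ℝ) : cv a b 0 = a 0 * b 0 := by simp [cv]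

/-- Backward difference, with the value before `0` equal to `0`. -/
def bd (a : ℕ → ℝ) (n : ℕ) : ℝ := match n with
  | 0 => a 0
  | (m + 1) => a (m + 1) - a m

@[simp] lemma bd_zero (a : ℕ → ℝ) : bd a 0 = a 0 := rfl
@[simp] lemma bd_succ (a : ℕ → ℝ) (m : ℕ) : bd a (m + 1) = a (m + 1) - a m := rfl

lemma sum_bd (a : ℕ → ℝ) (n : ℕ) : ∑ j ∈ range (n + 1), bd a j = a n := by
  induction n with
  | zero => simp
  | succ n ih => rw [sum_range_succ, ih]; simp

lemma cv_one (a : ℕ → ℝ) (n : ℕ) : cv a (fun _ => 1) n = ∑ j ∈ range (n + 1), a j := by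
  simp [cv]

lemma cv_bd_one (a : ℕ → ℝ) : cv (bd a) (fun _ => 1) = a := by
  funext n; rw [cv_one, sum_bd]

lemma bd_eq_mul (a : ℕ → ℝ) :
    PowerSeries.mk (bd a) = (1 - PowerSeries.X) * PowerSeries.mk a := by
  ext n
  rw [sub_mul, one_mul, map_sub]
  cases n with
  | zero => simp
  | succ n => simp [PowerSeries.coeff_succ_X_mul]

lemma cv_bd_left (a b : ℕ → ℝ) : cv (bd a) b = bd (cv a b) := by
  apply mk_inj; rw [mk_cv, bd_eq_mul, bd_eq_mul, mk_cv, mul_assoc]

lemma cv_bd_right (a b : ℕ → ℝ) : cv a (bd b) = bd (cv a b) := by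
  rw [cv_comm, cv_bd_left, cv_comm]

/-- `u` is the renewal sequence with first-return weights `f`. -/
structure Ren (f u : ℕ → ℝ) : Prop where
  f0 : f 0 = 0
  fnn : ∀ k, 0 ≤ f k
  fsum : ∀ n, ∑ k ∈ range (n + 1), f k ≤ 1
  u0 : u 0 = 1
  urec : ∀ n, u (n + 1) = cv f u (n + 1)

/-- Tail weights. -/
noncomputable def lam (f : ℕ → ℝ) (n : ℕ) : ℝ := 1 - ∑ k ∈ range (n + 1), f k

variable {f u : ℕ → ℝ}

lemma Ren.mulU (h : Ren f u) :
    (1 - PowerSeries.mk f) * PowerSeries.mk u = 1 := by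
  rw [sub_mul, one_mul, ← mk_cv]
  ext n
  cases n with
  | zero => simp [cv, h.u0, h.f0]
  | succ n => simp [h.urec, PowerSeries.coeff_one]

/-- Solving a renewal equation. -/
lemma Ren.solve (h : Ren f u) {x s : ℕ → ℝ} (hx : ∀ n, x n = cv f x n + s n) :
    x = cv u s := by
  apply mk_inj
  rw [mk_cv]
  have h1 : (1 - PowerSeries.mk f) * PowerSeries.mk x = PowerSeries.mk s := by
    rw [sub_mul, one_mul, ← mk_cv]
    ext n
    simp [hx n]
  calc PowerSeries.mk x = ((1 - PowerSeries.mk f) * PowerSeries.mk u) * PowerSeries.mk x := by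
        rw [h.mulU, one_mul]
    _ = PowerSeries.mk u * ((1 - PowerSeries.mk f) * PowerSeries.mk x) := by ring
    _ = PowerSeries.mk u * PowerSeries.mk s := by rw [h1]

lemma Ren.unsolve (h : Ren f u) {x s : ℕ → ℝ} (hx : x = cv u s) (n : ℕ) :
    x n = cv f x n + s n := by
  have h1 : (1 - PowerSeries.mk f) * PowerSeries.mk x = PowerSeries.mk s := by
    rw [hx, mk_cv, ← mul_assoc, h.mulU, one_mul]
  rw [sub_mul, one_mul, ← mk_cv] at h1
  have := congrArg (PowerSeries.coeff n) h1
  simp only [map_sub, PowerSeries.coeff_mk] at this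
  linarith

lemma Ren.solveS (h : Ren f u) (x : ℕ → ℝ) : x = cv u (fun n => x n - cv f x n) :=
  h.solve (fun n => by ring)

lemma Ren.lam_nonneg (h : Ren f u) (n : ℕ) : 0 ≤ lam f n := by
  have := h.fsum n; unfold lam; linarith

lemma Ren.lam_zero (h : Ren f u) : lam f 0 = 1 := by simp [lam, h.f0]

lemma lam_succ (f : ℕ → ℝ) (n : ℕ) : lam f (n + 1) = lam f n - f (n + 1) := by
  simp only [lam]; rw [sum_range_succ _ (n + 1)]; ring

lemma Ren.lam_anti (h : Ren f u) : Antitone (lam f) :=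
  antitone_nat_of_succ_le (fun n => by rw [lam_succ]; linarith [h.fnn (n + 1)])

lemma Ren.lam_one (h : Ren f u) : lam f 1 = 1 - f 1 := by
  rw [lam_succ, h.lam_zero]

lemma Ren.u_lam (h : Ren f u) : cv u (lam f) = fun _ => 1 := by
  symm
  apply h.solve
  intro n
  rw [cv_one, lam]; ring

lemma Ren.u_nonneg (h : Ren f u) : ∀ n, 0 ≤ u n := by
  intro n
  induction n using Nat.strong_induction_on with
  | _ n ih =>
    cases n with
    | zero => rw [h.u0]; norm_num
    | succ n =>
      rw [h.urec]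
      apply sum_nonneg
      intro k hk
      rcases Nat.eq_zero_or_pos k with rfl | hk0
      · rw [h.f0, zero_mul]
      · exact mul_nonneg (h.fnn k) (ih _ (by omega))

lemma Ren.u_le_one (h : Ren f u) : ∀ n, u n ≤ 1 := by
  intro n
  induction n using Nat.strong_induction_on with
  | _ n ih =>
    cases n with
    | zero => rw [h.u0]
    | succ n =>
      rw [h.urec]
      calc cv f u (n + 1) ≤ ∑ k ∈ range (n + 1 + 1), f k := by
            apply sum_le_sum
            intro k hk
            rcases Nat.eq_zero_or_pos k with rfl | hk0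
            · rw [h.f0, zero_mul]
            · have := ih (n + 1 - k) (by omega)
              nlinarith [h.fnn k]
        _ ≤ 1 := h.fsum _

/-- Comparison: a sub-solution of the renewal inequality which is bounded above by `B ≥ 0`
up to `m` and satisfies `x n ≤ cv f x n` beyond. -/
lemma Ren.max_principle (h : Ren f u) {x : ℕ → ℝ} {B : ℝ} (hB : 0 ≤ B) (m : ℕ)
    (h1 : ∀ n ≤ m, x n ≤ B) (h2 : ∀ n, m < n → x n ≤ cv f x n) : ∀ n, x n ≤ B := by
  intro n
  induction n using Nat.strong_induction_on with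
  | _ n ih =>
    by_cases hn : n ≤ m
    · exact h1 n hn
    · push Not at hn
      refine (h2 n hn).trans ?_
      calc cv f x n ≤ ∑ k ∈ range (n + 1), f k * B := by
            apply sum_le_sum
            intro k hk
            rcases Nat.eq_zero_or_pos k with rfl | hk0
            · rw [h.f0, zero_mul, zero_mul]
            · exact mul_le_mul_of_nonneg_left (ih _ (by omega)) (h.fnn k)
        _ = (∑ k ∈ range (n + 1), f k) * B := by rw [sum_mul]
        _ ≤ 1 * B := mul_le_mul_of_nonneg_right (h.fsum n) hB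
        _ = B := one_mul B

/-- Truncation of `u` at `m`. -/
noncomputable def tr (u : ℕ → ℝ) (m : ℕ) (i : ℕ) : ℝ := if i ≤ m then u i else 0

/-- The truncated convolution `∑_{i ≤ m} u i * u (ρ - i)`. -/
noncomputable def Cc (u : ℕ → ℝ) (m ρ : ℕ) : ℝ := cv (tr u m) u ρ

lemma Cc_le_eq {m ρ : ℕ} (hρ : ρ ≤ m) : Cc u m ρ = cv u u ρ := by
  unfold Cc cv tr
  apply sum_congr rfl
  intro k hk
  rw [mem_range] at hk
  rw [if_pos (by omega)]

lemma Cc_ge_eq {m ρ : ℕ} (hρ : m ≤ ρ) : Cc u m ρ = ∑ i ∈ range (m + 1), u i * u (ρ - i) := by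
  unfold Cc cv tr
  have hsub : range (m + 1) ⊆ range (ρ + 1) := range_subset_range.mpr (by omega)
  rw [← sum_subset hsub]
  · apply sum_congr rfl
    intro k hk
    rw [mem_range] at hk
    rw [if_pos (by omega)]
  · intro k _ hk2
    rw [mem_range] at hk2
    rw [if_neg (by omega), zero_mul]

lemma Ren.Cc_le (h : Ren f u) {m : ℕ} {B : ℝ} (hB : ∀ ρ ≤ m, cv u u ρ ≤ B) (ρ : ℕ) :
    Cc u m ρ ≤ B := by
  have hB0 : 0 ≤ B := by
    have := hB 0 (Nat.zero_le _)
    rw [cv_zero, h.u0] at this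
    linarith
  apply h.max_principle hB0 m (fun n hn => by rw [Cc_le_eq hn]; exact hB n hn)
  intro n hn
  have h1 : (fun r => Cc u m r) = cv u (tr u m) := by
    rw [cv_comm]; rfl
  have h2 := h.unsolve h1 n
  have h3 : tr u m n = 0 := by unfold tr; rw [if_neg (by omega)]
  rw [h3, add_zero] at h2
  exact le_of_eq h2

end T2h54.PF
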