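import Pool.Agent.T2h54.PF.Near
import Pool.Agent.T2h54.PF.Defs

/-!
# Skeletons of a p-function are renewal sequences
-/

namespace T2h54.PF

open MeasureTheory Filter Topology Finset
open scoped NNReal

section

variable {Ω : Type} [MeasurableSpace Ω] {P : Measure Ω} {E : ℝ≥0 → Set Ω} {p : ℝ≥0 → ℝ}

/-- The last factor of the product formula. -/
lemma last_factor (hEp : ∀ t, P.real (E t) = p t)
    (hprod : ∀ (n : ℕ) (t : Fin (n + 1) → ℝ≥0), Monotone t →
      P.real (⋂ i, E (t i)) = p (t 0) * P.real (⋂ i : Fin n, E (t i.succ - t 0))) :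
    ∀ (r : ℕ) (t : Fin (r + 2) → ℝ≥0), Monotone t →
      P.real (⋂ i, E (t i)) = P.real (⋂ i : Fin (r + 1), E (t i.castSucc))
        * p (t (Fin.last (r + 1)) - t (Fin.last r).castSucc) := by
  intro r
  induction r with
  | zero =>
    intro t ht
    rw [hprod 1 t ht]
    have h1 : (⋂ i : Fin 1, E (t i.succ - t 0)) = E (t 1 - t 0) := by
      rw [Set.iInter_eq_const] 
      intro i
      fin_cases i; rfl
    have h2 : (⋂ i : Fin 1, E (t i.castSucc)) = E (t 0) := by
      rw [Set.iInter_eq_const]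
      intro i
      fin_cases i; rfl
    rw [h1, h2, hEp, hEp]
    rfl
  | succ r ih =>
    intro t ht
    rw [hprod (r + 2) t ht]
    have ht' : Monotone (fun i : Fin (r + 2) => t i.succ - t 0) := by
      intro i j hij
      exact tsub_le_tsub_right (ht (Fin.succ_le_succ_iff.mpr hij)) _
    rw [ih (fun i : Fin (r + 2) => t i.succ - t 0) ht']
    have ht'' : Monotone (fun i : Fin (r + 2) => t i.castSucc) := by
      intro i j hij
      exact ht (Fin.castSucc_le_castSucc_iff.mpr hij)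
    rw [hprod (r + 1) (fun i : Fin (r + 2) => t i.castSucc) ht'']
    have h3 : t (Fin.last (r + 1)).succ - t 0 - (t (Fin.last r).castSucc.succ - t 0)
        = t (Fin.last (r + 1 + 1)) - t (Fin.last (r + 1)).castSucc := by
      have e1 : (Fin.last (r + 1)).succ = Fin.last (r + 1 + 1) := rfl
      have e2 : (Fin.last r).castSucc.succ = (Fin.last (r + 1)).castSucc := rfl
      rw [e1, e2]
      rw [tsub_tsub_tsub_cancel_right]
      exact ht (Fin.zero_le _)
    rw [h3]
    rw [← mul_assoc]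
    rfl

/-- Factorization at the largest index of a finite set of grid times. -/
lemma fin_factor (hEp : ∀ t, P.real (E t) = p t)
    (hprod : ∀ (n : ℕ) (t : Fin (n + 1) → ℝ≥0), Monotone t →
      P.real (⋂ i, E (t i)) = p (t 0) * P.real (⋂ i : Fin n, E (t i.succ - t 0)))
    (h : ℝ≥0) (S : Finset ℕ) (k n : ℕ) (hk : k ∈ S) (hS : ∀ i ∈ S, i ≤ k) (hkn : k ≤ n) :
    P.real ((⋂ i ∈ S, E ((i : ℝ≥0) * h)) ∩ E ((n : ℝ≥0) * h))
      = P.real (⋂ i ∈ S, E ((i : ℝ≥0) * h)) * p (((n - k : ℕ) : ℝ≥0) * h) := by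
  obtain ⟨r, hr⟩ : ∃ r, S.card = r + 1 :=
    ⟨S.card - 1, by have := Finset.card_pos.mpr ⟨k, hk⟩; omega⟩
  set g : Fin (r + 1) → ℝ≥0 := fun i => ((S.orderEmbOfFin hr i : ℕ) : ℝ≥0) * h with hg
  set t : Fin (r + 2) → ℝ≥0 := Fin.snoc (α := fun _ => ℝ≥0) g ((n : ℝ≥0) * h) with ht
  have hgm : Monotone g := by
    intro i j hij
    simp only [hg]
    apply mul_le_mul_of_nonneg_right _ zero_le
    exact_mod_cast (S.orderEmbOfFin hr).monotone hij
  have hgn : ∀ i, g i ≤ (n : ℝ≥0) * h := by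
    intro i
    simp only [hg]
    apply mul_le_mul_of_nonneg_right _ zero_le
    have := hS _ (S.orderEmbOfFin_mem hr i)
    exact_mod_cast this.trans hkn
  have htc : ∀ i : Fin (r + 1), t i.castSucc = g i := by
    intro i; simp [ht]
  have htl : t (Fin.last (r + 1)) = (n : ℝ≥0) * h := by
    simp [ht]
  have htm : Monotone t := by
    intro i j hij
    induction j using Fin.lastCases with
    | last =>
      rw [htl]
      induction i using Fin.lastCases with
      | last => rw [htl]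
      | cast i => rw [htc]; exact hgn i
    | cast j =>
      induction i using Fin.lastCases with
      | last =>
        exfalso
        exact absurd (Fin.castSucc_lt_last j) (not_lt.mpr hij)
      | cast i =>
        rw [htc, htc]
        exact hgm (Fin.castSucc_le_castSucc_iff.mp hij)
  have h1 := last_factor hEp hprod r t htm
  have hlast : t (Fin.last r).castSucc = (k : ℝ≥0) * h := by
    rw [htc]
    simp only [hg]
    congr 2
    have e1 : S.orderEmbOfFin hr (Fin.last r) = S.max' ⟨k, hk⟩ :=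
      Finset.orderEmbOfFin_last hr (Nat.succ_pos r)
    rw [e1]
    apply le_antisymm
    · exact hS _ (S.max'_mem _)
    · exact S.le_max' k hk
  have h2 : (⋂ i : Fin (r + 1), E (t i.castSucc)) = ⋂ i ∈ S, E ((i : ℝ≥0) * h) := by
    ext ω
    simp only [Set.mem_iInter, htc]
    constructor
    · intro hω i hi
      have : i ∈ Set.range (S.orderEmbOfFin hr) := by
        rw [Finset.range_orderEmbOfFin]; exact hi
      obtain ⟨j, hj⟩ := this
      have := hω j
      simp only [hg, hj] at this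
      exact this
    · intro hω i
      exact hω _ (S.orderEmbOfFin_mem hr i)
  have h3 : (⋂ i, E (t i)) = (⋂ i ∈ S, E ((i : ℝ≥0) * h)) ∩ E ((n : ℝ≥0) * h) := by
    rw [← h2]
    ext ω
    simp only [Set.mem_iInter, Set.mem_inter_iff]
    constructor
    · intro hω
      refine ⟨fun i => hω _, ?_⟩
      rw [← htl]; exact hω _
    · rintro ⟨h4, h5⟩ i
      induction i using Fin.lastCases with
      | last => rw [htl]; exact h5
      | cast i => exact h4 i
  rw [h3, h2, htl, hlast] at h1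
  rw [h1]
  congr 2
  rw [← tsub_mul]
  congr 1
  rw [Nat.cast_tsub]

/-- Factorization also in the presence of complements. -/
lemma fin_factor_compl [IsProbabilityMeasure P] (hEm : ∀ t, MeasurableSet (E t))
    (hEp : ∀ t, P.real (E t) = p t)
    (hprod : ∀ (n : ℕ) (t : Fin (n + 1) → ℝ≥0), Monotone t →
      P.real (⋂ i, E (t i)) = p (t 0) * P.real (⋂ i : Fin n, E (t i.succ - t 0)))
    (h : ℝ≥0) (k n : ℕ) (hkn : k ≤ n) (J : Finset ℕ) : ∀ (S : Finset ℕ) (_ : k ∈ S)
      (_ : ∀ i ∈ S, i ≤ k) (_ : ∀ j ∈ J, j ≤ k),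
    P.real (((⋂ i ∈ S, E ((i : ℝ≥0) * h)) ∩ (⋂ j ∈ J, (E ((j : ℝ≥0) * h))ᶜ))
        ∩ E ((n : ℝ≥0) * h))
      = P.real ((⋂ i ∈ S, E ((i : ℝ≥0) * h)) ∩ (⋂ j ∈ J, (E ((j : ℝ≥0) * h))ᶜ))
        * p (((n - k : ℕ) : ℝ≥0) * h) := by
  induction J using Finset.induction_on with
  | empty =>
    intro S hk hS _
    simp only [Finset.notMem_empty, Set.iInter_of_empty, Set.iInter_univ, Set.inter_univ]
    exact fin_factor hEp hprod h S k n hk hS hkn
  | insert j J hj ih =>
    intro S hk hS hJ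
    have hSm : MeasurableSet (⋂ i ∈ S, E ((i : ℝ≥0) * h)) :=
      Finset.measurableSet_biInter S (fun i _ => hEm _)
    have hJm : MeasurableSet (⋂ j ∈ J, (E ((j : ℝ≥0) * h))ᶜ) :=
      Finset.measurableSet_biInter J (fun i _ => (hEm _).compl)
    set X := (⋂ i ∈ S, E ((i : ℝ≥0) * h)) ∩ (⋂ j ∈ J, (E ((j : ℝ≥0) * h))ᶜ) with hX
    have hXm : MeasurableSet X := hSm.inter hJm
    have e1 : (⋂ i ∈ S, E ((i : ℝ≥0) * h)) ∩ (⋂ i ∈ insert j J, (E ((i : ℝ≥0) * h))ᶜ)
        = X \ E ((j : ℝ≥0) * h) := by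
      ext ω
      simp only [hX, Set.mem_inter_iff, Set.mem_iInter, Finset.mem_insert, Set.mem_sdiff,
        Set.mem_compl_iff]
      constructor
      · rintro ⟨h1, h2⟩
        exact ⟨⟨h1, fun i hi => h2 i (Or.inr hi)⟩, h2 j (Or.inl rfl)⟩
      · rintro ⟨⟨h1, h2⟩, h3⟩
        refine ⟨h1, ?_⟩
        rintro i (rfl | hi)
        · exact h3
        · exact h2 i hi
    have e2 : (⋂ i ∈ insert j S, E ((i : ℝ≥0) * h)) ∩ (⋂ j ∈ J, (E ((j : ℝ≥0) * h))ᶜ)
        = X ∩ E ((j : ℝ≥0) * h) := by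
      ext ω
      simp only [hX, Set.mem_inter_iff, Set.mem_iInter, Finset.mem_insert, Set.mem_compl_iff]
      constructor
      · rintro ⟨h1, h2⟩
        exact ⟨⟨fun i hi => h1 i (Or.inr hi), h2⟩, h1 j (Or.inl rfl)⟩
      · rintro ⟨⟨h1, h2⟩, h3⟩
        refine ⟨?_, h2⟩
        rintro i (rfl | hi)
        · exact h3
        · exact h1 i hi
    rw [e1]
    have i1 := ih S hk hS (fun i hi => hJ i (Finset.mem_insert_of_mem hi))
    have i2 := ih (insert j S) (Finset.mem_insert_of_mem hk)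
      (by
        intro i hi
        rcases Finset.mem_insert.mp hi with rfl | hi
        · exact hJ i (Finset.mem_insert_self _ _)
        · exact hS i hi)
      (fun i hi => hJ i (Finset.mem_insert_of_mem hi))
    rw [e2] at i2
    rw [← hX] at i1
    have hEj := hEm ((j : ℝ≥0) * h)
    have d1 : P.real (X \ E ((j : ℝ≥0) * h)) = P.real X - P.real (X ∩ E ((j : ℝ≥0) * h)) := by
      have := measureReal_sdiff_add_inter (μ := P) (s := X) hEj
      linarith
    have d2 : P.real ((X \ E ((j : ℝ≥0) * h)) ∩ E ((n : ℝ≥0) * h))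
        = P.real (X ∩ E ((n : ℝ≥0) * h))
          - P.real ((X ∩ E ((j : ℝ≥0) * h)) ∩ E ((n : ℝ≥0) * h)) := by
      have := measureReal_sdiff_add_inter (μ := P) (s := X ∩ E ((n : ℝ≥0) * h)) hEj
      have s1 : (X ∩ E ((n : ℝ≥0) * h)) \ E ((j : ℝ≥0) * h)
          = (X \ E ((j : ℝ≥0) * h)) ∩ E ((n : ℝ≥0) * h) := by
        ext ω; simp only [Set.mem_inter_iff, Set.mem_sdiff]; tauto
      have s2 : (X ∩ E ((n : ℝ≥0) * h)) ∩ E ((j : ℝ≥0) * h)
          = (X ∩ E ((j : ℝ≥0) * h)) ∩ E ((n : ℝ≥0) * h) := by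
        ext ω; simp only [Set.mem_inter_iff]; tauto
      rw [s1, s2] at this
      linarith
    rw [d2, i1, i2, d1]; ring

end

end T2h54.PF
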