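import Pool.Agent.T2h54.PF.Skel

/-!
# The renewal structure of a skeleton
-/

namespace T2h54.PF

open MeasureTheory Filter Topology Finset
open scoped NNReal

variable {Ω : Type} [MeasurableSpace Ω] {P : Measure Ω} {E : ℝ≥0 → Set Ω} {p : ℝ≥0 → ℝ}

/-- First return at `k`. -/
def Bk (E : ℝ≥0 → Set Ω) (h : ℝ≥0) (k : ℕ) : Set Ω :=
  (⋂ i ∈ ({k} : Finset ℕ), E ((i : ℝ≥0) * h)) ∩ (⋂ j ∈ Ico 1 k, (E ((j : ℝ≥0) * h))ᶜ)

omit [MeasurableSpace Ω] in
lemma mem_Bk {h : ℝ≥0} {k : ℕ} {ω : Ω} : ω ∈ Bk E h k ↔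
    ω ∈ E ((k : ℝ≥0) * h) ∧ ∀ j, 1 ≤ j → j < k → ω ∉ E ((j : ℝ≥0) * h) := by
  simp only [Bk, Set.mem_inter_iff, Finset.mem_singleton, Set.iInter_iInter_eq_left,
    Set.mem_iInter, Finset.mem_Ico, Set.mem_compl_iff]
  constructor
  · rintro ⟨h1, h2⟩
    exact ⟨h1, fun j h3 h4 => h2 j ⟨h3, h4⟩⟩
  · rintro ⟨h1, h2⟩
    exact ⟨h1, fun j h3 => h2 j h3.1 h3.2⟩

lemma measurableSet_Bk (hEm : ∀ t, MeasurableSet (E t)) (h : ℝ≥0) (k : ℕ) :
    MeasurableSet (Bk E h k) :=
  (Finset.measurableSet_biInter _ (fun _ _ => hEm _)).inter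
    (Finset.measurableSet_biInter _ (fun _ _ => (hEm _).compl))

omit [MeasurableSpace Ω] in
lemma disjoint_Bk (E : ℝ≥0 → Set Ω) (h : ℝ≥0) {k l : ℕ} (hk : 1 ≤ k) (hl : 1 ≤ l)
    (hkl : k ≠ l) : Disjoint (Bk E h k) (Bk E h l) := by
  rw [Set.disjoint_left]
  intro ω h1 h2
  rw [mem_Bk] at h1 h2
  rcases lt_or_gt_of_ne hkl with h3 | h3
  · exact h2.2 k hk h3 h1.1
  · exact h1.2 l hl h3 h2.1

/-- The first-return weights of the skeleton. -/
noncomputable def fw (P : Measure Ω) (E : ℝ≥0 → Set Ω) (h : ℝ≥0) (k : ℕ) : ℝ :=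
  if k = 0 then 0 else P.real (Bk E h k)

lemma sum_range_eq_Ico {a : ℕ → ℝ} (ha : a 0 = 0) (n : ℕ) :
    ∑ k ∈ range (n + 1), a k = ∑ k ∈ Ico 1 (n + 1), a k := by
  rw [Finset.range_eq_Ico, Finset.sum_eq_sum_Ico_succ_bot (Nat.succ_pos n), ha, zero_add]

theorem skeleton [IsProbabilityMeasure P] (hp0 : p 0 = 1) (hEm : ∀ t, MeasurableSet (E t))
    (hEp : ∀ t, P.real (E t) = p t)
    (hprod : ∀ (n : ℕ) (t : Fin (n + 1) → ℝ≥0), Monotone t →
      P.real (⋂ i, E (t i)) = p (t 0) * P.real (⋂ i : Fin n, E (t i.succ - t 0)))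
    (h : ℝ≥0) : Ren (fw P E h) (fun n => p ((n : ℝ≥0) * h)) := by
  have hf0 : fw P E h 0 = 0 := by simp [fw]
  have hdisj : ∀ (n : ℕ), Set.PairwiseDisjoint (↑(Ico 1 (n + 1)) : Set ℕ) (Bk E h) := by
    intro n k hk l hl hkl
    simp only [Finset.coe_Ico, Set.mem_Ico] at hk hl
    exact disjoint_Bk E h hk.1 hl.1 hkl
  refine ⟨hf0, ?_, ?_, ?_, ?_⟩
  · intro k
    unfold fw
    split_ifs
    · exact le_rfl
    · exact measureReal_nonneg
  · intro n
    rw [sum_range_eq_Ico hf0]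
    have h1 : ∑ k ∈ Ico 1 (n + 1), fw P E h k = P.real (⋃ k ∈ Ico 1 (n + 1), Bk E h k) := by
      rw [measureReal_biUnion_finset (hdisj n) (fun k _ => measurableSet_Bk hEm h k)]
      apply sum_congr rfl
      intro k hk
      rw [mem_Ico] at hk
      unfold fw
      rw [if_neg (by omega)]
    rw [h1]
    exact measureReal_le_one
  · simp [hp0]
  · intro n
    show p (((n + 1 : ℕ) : ℝ≥0) * h) = cv (fw P E h) (fun n => p ((n : ℝ≥0) * h)) (n + 1)
    unfold cv
    rw [sum_range_eq_Ico (a := fun k => fw P E h k * p (((n + 1 - k : ℕ) : ℝ≥0) * h))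
      (by simp [hf0])]
    have h2 : E (((n + 1 : ℕ) : ℝ≥0) * h)
        = ⋃ k ∈ Ico 1 (n + 1 + 1), (Bk E h k ∩ E (((n + 1 : ℕ) : ℝ≥0) * h)) := by
      ext ω
      simp only [Set.mem_iUnion, mem_Ico, Set.mem_inter_iff, exists_prop]
      constructor
      · intro hω
        classical
        have hex : ∃ k : ℕ, 1 ≤ k ∧ ω ∈ E ((k : ℝ≥0) * h) := ⟨n + 1, by omega, hω⟩
        refine ⟨Nat.find hex, ⟨(Nat.find_spec hex).1, ?_⟩, ?_, hω⟩
        · have := Nat.find_min' hex (m := n + 1) ⟨by omega, hω⟩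
          omega
        · rw [mem_Bk]
          refine ⟨(Nat.find_spec hex).2, ?_⟩
          intro j hj1 hj2 hj3
          exact Nat.find_min hex hj2 ⟨hj1, hj3⟩
      · rintro ⟨k, _, _, hω⟩
        exact hω
    rw [← hEp, h2, measureReal_biUnion_finset]
    · apply sum_congr rfl
      intro k hk
      rw [mem_Ico] at hk
      have h3 := fin_factor_compl hEm hEp hprod h k (n + 1) (by omega) (Ico 1 k) {k}
        (mem_singleton_self k) (by intro i hi; rw [mem_singleton] at hi; omega)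
        (by intro j hj; rw [mem_Ico] at hj; omega)
      unfold fw
      rw [if_neg (by omega)]
      exact h3
    · intro k hk l hl hkl
      simp only [Finset.coe_Ico, Set.mem_Ico] at hk hl
      exact (disjoint_Bk E h hk.1 hl.1 hkl).mono Set.inter_subset_left Set.inter_subset_left
    · intro k _
      exact (measurableSet_Bk hEm h k).inter (hEm _)

lemma fw_one (hEp : ∀ t, P.real (E t) = p t) (h : ℝ≥0) : fw P E h 1 = p h := by
  unfold fw
  rw [if_neg one_ne_zero, ← hEp]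
  congr 1
  ext ω
  rw [mem_Bk]
  constructor
  · intro h1; simpa using h1.1
  · intro h1
    exact ⟨by simpa using h1, fun j h2 h3 => by omega⟩

/-- Two-point comparison. -/
lemma two_point [IsProbabilityMeasure P] (hEm : ∀ t, MeasurableSet (E t))
    (hEp : ∀ t, P.real (E t) = p t)
    (hprod : ∀ (n : ℕ) (t : Fin (n + 1) → ℝ≥0), Monotone t →
      P.real (⋂ i, E (t i)) = p (t 0) * P.real (⋂ i : Fin n, E (t i.succ - t 0)))
    (s d : ℝ≥0) : |p (s + d) - p s| ≤ 1 - p d := by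
  have hp01 : ∀ t, 0 ≤ p t ∧ p t ≤ 1 := by
    intro t; rw [← hEp]; exact ⟨measureReal_nonneg, measureReal_le_one⟩
  have key : ∀ a b : ℝ≥0, P.real (E a ∩ E (a + b)) = p a * p b := by
    intro a b
    have h1 := hprod 1 ![a, a + b] (by
      intro i j hij
      fin_cases i <;> fin_cases j
      · exact le_rfl
      · simp
      · exact absurd hij (by decide)
      · exact le_rfl)
    have h2 : (⋂ i, E (![a, a + b] i)) = E a ∩ E (a + b) := by
      ext ω
      simp only [Set.mem_iInter, Set.mem_inter_iff]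
      constructor
      · intro hω; exact ⟨hω 0, hω 1⟩
      · rintro ⟨h3, h4⟩ i
        fin_cases i
        · exact h3
        · exact h4
    have h3 : (⋂ i : Fin 1, E (![a, a + b] i.succ - ![a, a + b] 0)) = E b := by
      rw [Set.iInter_eq_const (s := E b)]
      intro i
      fin_cases i
      simp
    rw [h2, h3, hEp] at h1
    exact h1
  rw [abs_le]
  constructor
  · -- p s - p (s+d) ≤ 1 - p d
    have h1 : p s * p d ≤ p (s + d) := by
      rw [← key s d, ← hEp (s + d)]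
      exact measureReal_mono Set.inter_subset_right
    have h2 := hp01 s
    have h3 := hp01 d
    nlinarith
  · have h1 := key d s
    have h2 := measureReal_sdiff_add_inter (μ := P) (s := E (s + d)) (hEm d)
    have h3 : E (s + d) ∩ E d = E d ∩ E (d + s) := by
      rw [add_comm s d, Set.inter_comm]
    rw [h3, h1, hEp] at h2
    have h4 : P.real (E (s + d) \ E d) ≤ 1 - p d := by
      have : P.real (E (s + d) \ E d) ≤ P.real (E d)ᶜ :=
        measureReal_mono (fun ω hω => hω.2) (measure_ne_top _ _)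
      rw [probReal_compl_eq_one_sub (hEm d), hEp] at this
      exact this
    have h5 := hp01 s
    have h6 := hp01 d
    nlinarith

end T2h54.PF
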