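import Pool.Agent.T2h54.PF.Level

/-!
# The key inequality `u (m + w) ≤ u m * u w + φ (u w) / q`
-/

namespace T2h54.PF

open Finset

variable {f u : ℕ → ℝ} {γ : ℝ}

/-- The concave function `φ`. -/
noncomputable def phi (q z : ℝ) : ℝ :=
  max z (Real.exp (-q)) * (1 - q - Real.log (max z (Real.exp (-q))))

lemma log_max_ge (q z : ℝ) : 0 ≤ q + Real.log (max z (Real.exp (-q))) := by
  have h1 : Real.exp (-q) ≤ max z (Real.exp (-q)) := le_max_right _ _
  have h2 := Real.log_le_log (Real.exp_pos _) h1
  rw [Real.log_exp] at h2
  linarith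

lemma phi_tangent (q z z' : ℝ) :
    phi q z' ≤ max z (Real.exp (-q)) - (q + Real.log (max z (Real.exp (-q)))) * z' := by
  set w := max z (Real.exp (-q)) with hw
  have hwpos : 0 < w := (Real.exp_pos _).trans_le (le_max_right _ _)
  unfold phi
  set w' := max z' (Real.exp (-q)) with hw'
  have hw'pos : 0 < w' := (Real.exp_pos _).trans_le (le_max_right _ _)
  have h1 := mul_log_sub_ge hw'pos hwpos
  have h2 : z' ≤ w' := le_max_left _ _
  have h3 : 0 ≤ q + Real.log w := log_max_ge q z
  have h4 := mul_le_mul_of_nonneg_left h2 h3
  nlinarith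

lemma phi_self (q z : ℝ) :
    phi q z = max z (Real.exp (-q)) - (q + Real.log (max z (Real.exp (-q)))) * z := by
  unfold phi
  rcases le_total z (Real.exp (-q)) with h | h
  · rw [max_eq_right h, Real.log_exp]; ring
  · rw [max_eq_left h]; ring

/-- Legendre bound. -/
lemma phi_legendre {q s z : ℝ} (hq : 0 < q) (hs : 0 ≤ s) :
    s * z + phi q z / q ≤ Real.exp (q * (s - 1)) / q := by
  have h1 := phi_tangent q (Real.exp (q * (s - 1))) z
  have h2 : Real.exp (-q) ≤ Real.exp (q * (s - 1)) := by
    apply Real.exp_le_exp.mpr; nlinarith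
  rw [max_eq_left h2, Real.log_exp] at h1
  have h3 : s * z + phi q z / q = (q * s * z + phi q z) / q := by field_simp
  rw [h3]
  apply div_le_div_of_nonneg_right _ hq.le
  nlinarith

/-- Shifted copy of `u` by `m - k`, with value `0` at negative arguments. -/
noncomputable def shf (u : ℕ → ℝ) (m k w : ℕ) : ℝ := if k ≤ m + w then u (m + w - k) else 0

lemma cv_shf {m k n : ℕ} (hk : k ≤ m + n) : cv (shf u m k) u n = Cc u n (m + n - k) := by
  unfold Cc
  rw [cv_comm]
  unfold cv shf tr
  have h1 : ∀ i ∈ range (n + 1), u i * (if k ≤ m + (n - i) then u (m + (n - i) - k) else 0)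
      = if i + k ≤ m + n then u i * u (m + n - k - i) else 0 := by
    intro i hi
    rw [mem_range] at hi
    by_cases h : i + k ≤ m + n
    · rw [if_pos h, if_pos (by omega), show m + (n - i) - k = m + n - k - i by omega]
    · rw [if_neg h, if_neg (by omega), mul_zero]
  have h2 : ∀ i ∈ range (m + n - k + 1), (if i ≤ n then u i else 0) * u (m + n - k - i)
      = if i ≤ n then u i * u (m + n - k - i) else 0 := by
    intro i _
    split_ifs <;> ring
  rw [sum_congr rfl h1, sum_congr rfl h2, ← sum_filter, ← sum_filter]
  apply sum_congr _ (fun _ _ => rfl)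
  ext i
  simp only [mem_filter, mem_range]
  omega

lemma cv_shf_zero {m k n : ℕ} (hk : m + n < k) : cv (shf u m k) u n = 0 := by
  unfold cv shf
  apply sum_eq_zero
  intro i hi
  rw [mem_range] at hi
  rw [if_neg (by omega), zero_mul]

lemma Ren.cv_mono (L : ℕ) (hΔ : ∀ j ≤ L, 0 ≤ Del γ u j) :
    ∀ n ≤ L, ∀ ρ ≤ n, cv u (pin γ u) ρ ≤ cv u (pin γ u) n := by
  intro n
  induction n with
  | zero => intro _ ρ hρ; rw [Nat.le_zero.mp hρ]
  | succ n ih =>
    intro hn ρ hρ
    rcases Nat.lt_or_ge ρ (n + 1) with h1 | h1
    · have h2 := ih (by omega) ρ (by omega)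
      have h3 := hΔ (n + 1) hn
      rw [Del_eq, bd_succ] at h3
      linarith
    · rw [le_antisymm hρ h1]

lemma Ren.cv_shf_le (h : Ren f u) (hγ0 : 0 ≤ γ) (L : ℕ) (hΔ : ∀ j ≤ L, 0 ≤ Del γ u j)
    (m k : ℕ) : ∀ n ≤ L, cv (shf u m k) u n ≤ cv (pin γ u) u n := by
  intro n hn
  have hpos : 0 ≤ cv (pin γ u) u n :=
    sum_nonneg (fun i _ => mul_nonneg (hγ0.trans (pin_ge i)) (h.u_nonneg _))
  rcases Nat.lt_or_ge (m + n) k with hk | hk
  · rw [cv_shf_zero hk]; exact hpos
  · rw [cv_shf hk]
    apply h.Cc_le
    intro ρ hρ
    have h1 : cv u u ρ ≤ cv u (pin γ u) ρ :=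
      sum_le_sum (fun i _ => mul_le_mul_of_nonneg_left (le_pin _) (h.u_nonneg i))
    refine h1.trans ?_
    rw [cv_comm (pin γ u) u]
    exact Ren.cv_mono L hΔ n hn ρ hρ

/-- Truncated convolution positivity. -/
lemma Ren.trunc_nonneg (h : Ren f u) (ψ : ℕ → ℝ) (L : ℕ)
    (hψ : ∀ n ≤ L, 0 ≤ cv ψ u n) (W : ℕ) (hW : L ≤ W) :
    0 ≤ ∑ i ∈ range (L + 1), u (W - i) * ψ i := by
  set x : ℕ → ℝ := cv u (tr ψ L) with hx
  have hrec := fun n => h.unsolve hx n
  have hall : ∀ n, -x n ≤ 0 := by
    apply h.max_principle (x := fun n => -x n) le_rfl L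
    · intro n hn
      have h1 : x n = cv ψ u n := by
        rw [hx, cv_comm]
        unfold cv tr
        apply sum_congr rfl
        intro i hi
        rw [mem_range] at hi
        rw [if_pos (by omega)]
      have := hψ n hn
      linarith
    · intro n hn
      have h1 := hrec n
      have h2 : tr ψ L n = 0 := by unfold tr; rw [if_neg (by omega)]
      rw [h2, add_zero] at h1
      have h3 : cv f (fun n => -x n) n = - cv f x n := by
        unfold cv
        rw [← sum_neg_distrib]
        exact sum_congr rfl (fun _ _ => by ring)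
      rw [h3, ← h1]
  have h1 := hall W
  have h2 : x W = ∑ i ∈ range (L + 1), u (W - i) * ψ i := by
    rw [hx, cv_comm]
    unfold cv tr
    have hsub : range (L + 1) ⊆ range (W + 1) := range_subset_range.mpr (by omega)
    rw [← sum_subset hsub]
    · apply sum_congr rfl
      intro k hk
      rw [mem_range] at hk
      rw [if_pos (by omega)]; ring
    · intro k _ hk2
      rw [mem_range] at hk2
      rw [if_neg (by omega), zero_mul]
  rw [← h2]; linarith

theorem Ren.T1 (h : Ren f u) {q : ℝ} (hqf : q = f 1) (hq0 : 0 < q) (m W : ℕ)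
    (hΔ : ∀ j ≤ W, 0 ≤ Del (Real.exp (-q)) u j) :
    u (m + W) ≤ u m * u W + phi q (u W) / q := by
  set γ := Real.exp (-q) with hγ
  have hγ0 : 0 < γ := Real.exp_pos _
  have hq1 : q ≤ 1 := by
    have := h.fsum 1
    rw [sum_range_succ, sum_range_one, h.f0] at this
    linarith
  have hγ1 : γ ≤ 1 := by
    rw [hγ]; exact Real.exp_le_one_iff.mpr (by linarith)
  set E : ℕ → ℝ := fun w => phi q (u w) / q - (u (m + w) - u m * u w) with hE
  set G : ℕ → ℝ := fun w => E w - cv f E w with hG
  have hEG : E = cv u G := h.solveS E
  set π := pin γ u with hπ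
  have hπnn : ∀ w, 0 ≤ π w := fun w => hγ0.le.trans (pin_ge w)
  -- concavity
  have hconc : ∀ w, 1 ≤ w → cv f (fun j => phi q (u j)) w ≤ phi q (u w) - lam f w * π w := by
    intro w hw
    have h1 : cv f (fun j => phi q (u j)) w ≤ ∑ k ∈ range (w + 1),
        f k * (π w - (q + Real.log (π w)) * u (w - k)) := by
      apply sum_le_sum
      intro k _
      exact mul_le_mul_of_nonneg_left (phi_tangent q (u w) (u (w - k))) (h.fnn k)
    refine h1.trans ?_
    have h2 : ∑ k ∈ range (w + 1), f k * (π w - (q + Real.log (π w)) * u (w - k))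
        = (∑ k ∈ range (w + 1), f k) * π w - (q + Real.log (π w)) * cv f u w := by
      unfold cv
      rw [sum_mul, mul_sum, ← sum_sub_distrib]
      exact sum_congr rfl (fun _ _ => by ring)
    have h3 : cv f u w = u w := by
      obtain ⟨z, rfl⟩ : ∃ z, w = z + 1 := ⟨w - 1, by omega⟩
      rw [h.urec]
    have h4 : phi q (u w) = π w - (q + Real.log (π w)) * u w := phi_self q (u w)
    rw [h2, h3, h4]
    unfold lam
    linarith
  -- the lower bound H for the source
  set H : ℕ → ℝ := fun w => ∑ k ∈ range (m + W + 2),
    (if w < k ∧ 2 ≤ k then f k * (π w / q - shf u m k w) else 0) with hH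
  have hHG : ∀ w ≤ W, H w ≤ G w := by
    intro w hw
    rcases Nat.eq_zero_or_pos w with rfl | hw0
    · have hG0 : G 0 = (1 - q) / q := by
        simp only [hG, hE, cv_zero, h.f0, h.u0]
        have : phi q 1 = 1 - q := by
          unfold phi
          rw [max_eq_left hγ1, Real.log_one]; ring
        rw [this]; simp
      have hπ0 : π 0 = 1 := by
        rw [hπ, pin_of_ge]
        · exact h.u0
        · rw [h.u0]; exact hγ1
      rw [hG0]
      have h1 : H 0 ≤ ∑ k ∈ range (m + W + 2), (if 2 ≤ k then f k / q else 0) := by
        apply sum_le_sum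
        intro k _
        by_cases hk : 2 ≤ k
        · rw [if_pos ⟨by omega, hk⟩, if_pos hk, hπ0]
          have h2 : 0 ≤ shf u m k 0 := by
            unfold shf; split_ifs
            · exact h.u_nonneg _
            · exact le_rfl
          have h3 := mul_nonneg (h.fnn k) h2
          have h4 : f k * (1 / q - shf u m k 0) = f k / q - f k * shf u m k 0 := by ring
          rw [h4]; linarith
        · rw [if_neg (by tauto), if_neg hk]
      refine h1.trans ?_
      have h2 : ∑ k ∈ range (m + W + 2), (if 2 ≤ k then f k / q else 0)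
          = (∑ k ∈ range (m + W + 1 + 1), f k - q) / q := by
        rw [sub_div, sum_div]
        have e1 : ∀ k ∈ range (m + W + 1 + 1), f k / q
            = (if 2 ≤ k then f k / q else 0) + (if k = 1 then q / q else 0) := by
          intro k _
          rcases Nat.lt_or_ge k 2 with hk | hk
          · interval_cases k
            · simp [h.f0]
            · simp [hqf]
          · rw [if_pos hk, if_neg (by omega), add_zero]
        rw [sum_congr rfl e1, sum_add_distrib]
        rw [Finset.sum_ite_eq' (range (m + W + 1 + 1)) 1 (fun _ => q / q), if_pos (by simp)]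
        ring
      rw [h2]
      apply div_le_div_of_nonneg_right _ hq0.le
      have := h.fsum (m + W + 1)
      linarith
    · have h1 : G w = (phi q (u w) - cv f (fun j => phi q (u j)) w) / q
          - (u (m + w) - cv f (fun j => u (m + j)) w) := by
        have e1 : cv f E w = cv f (fun j => phi q (u j)) w / q
            - (cv f (fun j => u (m + j)) w - u m * cv f u w) := by
          unfold cv
          rw [sum_div, mul_sum, ← sum_sub_distrib, ← sum_sub_distrib]
          apply sum_congr rfl
          intro k _
          simp only [hE]; ring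
        have h3 : cv f u w = u w := by
          obtain ⟨z, rfl⟩ : ∃ z, w = z + 1 := ⟨w - 1, by omega⟩
          rw [h.urec]
        simp only [hG]
        rw [e1, h3]
        simp only [hE]; ring
      have h2 : lam f w * π w / q ≤ (phi q (u w) - cv f (fun j => phi q (u j)) w) / q := by
        apply div_le_div_of_nonneg_right _ hq0.le
        have := hconc w hw0
        linarith
      have h3 : u (m + w) - cv f (fun j => u (m + j)) w
          = ∑ k ∈ Ico (w + 1) (m + w + 1), f k * u (m + w - k) := by
        have e1 : u (m + w) = cv f u (m + w) := by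
          obtain ⟨z, rfl⟩ : ∃ z, w = z + 1 := ⟨w - 1, by omega⟩
          rw [← add_assoc, h.urec]
        have e2 : cv f (fun j => u (m + j)) w = ∑ k ∈ range (w + 1), f k * u (m + w - k) := by
          unfold cv
          apply sum_congr rfl
          intro k hk
          rw [mem_range] at hk
          show f k * u (m + (w - k)) = f k * u (m + w - k)
          rw [show m + (w - k) = m + w - k by omega]
        rw [e1, cv_split f u m w, e2]; ring
      have h4 : ∑ k ∈ Ico (w + 1) (m + w + 1), f k * u (m + w - k)
          = ∑ k ∈ range (m + W + 2), (if w < k then f k * shf u m k w else 0) := by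
        rw [← sum_filter]
        have hsub : Ico (w + 1) (m + w + 1) ⊆ (range (m + W + 2)).filter (fun k => w < k) := by
          intro k hk
          simp only [mem_Ico] at hk
          simp only [mem_filter, mem_range]
          omega
        rw [← sum_subset hsub]
        · apply sum_congr rfl
          intro k hk
          rw [mem_Ico] at hk
          unfold shf
          rw [if_pos (by omega)]
        · intro k hk1 hk2
          simp only [mem_filter, mem_range] at hk1
          simp only [mem_Ico] at hk2
          unfold shf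
          rw [if_neg (by omega), mul_zero]
      have h5 : ∑ k ∈ range (m + W + 2), (if w < k then f k * (π w / q) else 0)
          ≤ lam f w * π w / q := by
        have e1 : ∑ k ∈ range (m + W + 2), (if w < k then f k * (π w / q) else 0)
            = (∑ k ∈ Ico (w + 1) (m + W + 1 + 1), f k) * (π w / q) := by
          rw [sum_mul, ← sum_filter]
          apply sum_congr _ (fun _ _ => rfl)
          ext k
          simp only [mem_filter, mem_range, mem_Ico]
          omega
        rw [e1]
        have e2 := h.fsum (m + W + 1)
        rw [← Finset.sum_range_add_sum_Ico (fun k => f k)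
          (show w + 1 ≤ m + W + 1 + 1 by omega)] at e2
        have e3 : ∑ k ∈ Ico (w + 1) (m + W + 1 + 1), f k ≤ lam f w := by
          unfold lam; linarith
        have e4 := mul_le_mul_of_nonneg_right e3 (div_nonneg (hπnn w) hq0.le)
        rw [mul_div_assoc]; exact e4
      have h6 : H w = ∑ k ∈ range (m + W + 2), (if w < k then f k * (π w / q) else 0)
          - ∑ k ∈ range (m + W + 2), (if w < k then f k * shf u m k w else 0) := by
        rw [← sum_sub_distrib]
        apply sum_congr rfl
        intro k _
        by_cases hk : w < k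
        · rw [if_pos ⟨hk, by omega⟩, if_pos hk, if_pos hk]; ring
        · rw [if_neg (by tauto), if_neg hk, if_neg hk]; ring
      rw [h6, h1, h3, h4]
      linarith
  have hEW : 0 ≤ E W := by
    rw [hEG]
    have s1 : ∑ w ∈ range (W + 1), u (W - w) * H w ≤ cv u G W := by
      rw [cv_comm]
      unfold cv
      apply sum_le_sum
      intro w hw
      rw [mem_range] at hw
      rw [mul_comm]
      exact mul_le_mul_of_nonneg_right (hHG w (by omega)) (h.u_nonneg _)
    refine le_trans ?_ s1
    have s2 : ∑ w ∈ range (W + 1), u (W - w) * H w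
        = ∑ k ∈ range (m + W + 2), ∑ w ∈ range (W + 1),
          (if w < k ∧ 2 ≤ k then f k * (u (W - w) * (π w / q - shf u m k w)) else 0) := by
      rw [sum_comm]
      apply sum_congr rfl
      intro w _
      simp only [hH]
      rw [mul_sum]
      apply sum_congr rfl
      intro k _
      split_ifs <;> ring
    rw [s2]
    apply sum_nonneg
    intro k _
    by_cases hk : 2 ≤ k
    · have t1 : ∑ w ∈ range (W + 1),
          (if w < k ∧ 2 ≤ k then f k * (u (W - w) * (π w / q - shf u m k w)) else 0)
          = f k * ∑ w ∈ range (min W (k - 1) + 1), u (W - w) * (π w / q - shf u m k w) := by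
        rw [← sum_filter, mul_sum]
        apply sum_congr _ (fun _ _ => rfl)
        ext w
        simp only [mem_filter, mem_range]
        omega
      rw [t1]
      apply mul_nonneg (h.fnn k)
      have t2 : 0 ≤ ∑ w ∈ range (min W (k - 1) + 1), u (W - w) * (π w - shf u m k w) := by
        apply h.trunc_nonneg (fun w => π w - shf u m k w) (min W (k - 1)) _ W (min_le_left _ _)
        intro n hn
        have e1 := h.cv_shf_le hγ0.le (min W (k - 1))
          (fun j hj => hΔ j (hj.trans (min_le_left _ _))) m k n hn
        have e2 : cv (fun w => π w - shf u m k w) u n = cv π u n - cv (shf u m k) u n := by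
          rw [cv_comm, cv_sub, cv_comm u π, cv_comm u (shf u m k)]
        rw [e2]
        linarith
      refine t2.trans ?_
      apply sum_le_sum
      intro w _
      apply mul_le_mul_of_nonneg_left _ (h.u_nonneg _)
      have : π w ≤ π w / q := by
        rw [le_div_iff₀ hq0]
        nlinarith [hπnn w]
      linarith
    · apply sum_nonneg
      intro w _
      rw [if_neg (by tauto)]
  have : E W = phi q (u W) / q - (u (m + W) - u m * u W) := rfl
  rw [this] at hEW
  linarith

end T2h54.PF
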